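import Pool.Agent.MP_9b2bac_nt.Tw.Stmt

/-! Induction along subgroups of index two, and invariant good classes. -/

set_option autoImplicit false

open NumberField IsDedekindDomain Module

namespace Pool.Agent.MP_9b2bac_nt.Tw

open Pool.Agent.MP_f3cd89_nt

theorem up_Ind {G : Type} [Group G] [Finite G] (hG : IsPGroup 2 G) (H : Subgroup G) (hH : H ≠ ⊤) :
    ∃ H' : Subgroup G, H ≤ H' ∧ (H.subgroupOf H').index = 2 := by
  obtain ⟨n, hn⟩ := (hG.to_subgroup H).exists_card_eq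
  obtain ⟨m, hm⟩ := hG.index H
  have h1 : m ≠ 0 := by
    rintro rfl
    exact hH (Subgroup.index_eq_one.1 (by simpa using hm))
  have h2 : 2 ^ (n + 1) ∣ Nat.card G := by
    rw [← H.card_mul_index, hn, hm, ← pow_add]
    exact pow_dvd_pow 2 (by omega)
  obtain ⟨H', h3, h4⟩ := Sylow.exists_subgroup_card_pow_succ h2 hn
  refine ⟨H', h4, ?_⟩
  have h5 := (H.subgroupOf H').card_mul_index
  rw [h3, Nat.card_congr (Subgroup.subgroupOfEquivOfLe h4).toEquiv, hn, pow_succ] at h5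
  exact Nat.eq_of_mul_eq_mul_left (by positivity) h5

theorem ind : IND_st := by
  intro G _ _ hG P H₀ h0 hs
  have key : ∀ H : Subgroup G, H₀ ≤ H → P H → P ⊤ := by
    intro H
    induction H using WellFoundedGT.induction with
    | ind H ih =>
      intro h1 h2
      by_cases hH : H = ⊤
      · exact hH ▸ h2
      obtain ⟨H', h3, h4⟩ := up_Ind hG H hH
      have hi : ∀ a ∈ H', ∀ b ∈ H', (a * b ∈ H ↔ (a ∈ H ↔ b ∈ H)) := fun a ha b hb =>
        Subgroup.mul_mem_iff_of_index_two h4 (a := ⟨a, ha⟩) (b := ⟨b, hb⟩)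
      obtain ⟨s, hs1, hs2⟩ : ∃ s ∈ H', s ∉ H := by
        by_contra h
        push Not at h
        rw [Subgroup.subgroupOf_eq_top.2 h, Subgroup.index_top] at h4
        omega
      have hs3 : s⁻¹ ∉ H := by rwa [inv_mem_iff]
      refine ih H' (lt_of_le_of_ne h3 fun e => hs2 (e ▸ hs1)) (h1.trans h3)
        (hs H H' s h1 h2 hs2 (by rw [hi s hs1 s hs1]) (fun h hh => ?_) fun g => ⟨fun hg => ?_, ?_⟩)
      · rw [hi _ (H'.mul_mem hs1 (h3 hh)) _ (H'.inv_mem hs1), hi _ hs1 _ (h3 hh)]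
        tauto
      · rw [hi _ hg _ (H'.inv_mem hs1)]
        tauto
      · rintro (hg | hg)
        · exact h3 hg
        · simpa using H'.mul_mem (h3 hg) hs1
  exact key H₀ le_rfl h0

theorem good_Ind {p : ℕ} [Fact p.Prime] {K L : Type} [Field K] [Field L] [NumberField L]
    [Algebra K L] {x : L} (h : Good p x) (s : L ≃ₐ[K] L) : Good p (x * s x) := by
  obtain ⟨h0, h1, h2, h3, h4⟩ := h
  have s0 : s x ≠ 0 := (map_ne_zero s).2 h0
  have a : ∀ (k : Type) [Field k], SqAt k x → SqAt k (x * s x) := fun k _ hk φ => by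
    rw [map_mul]
    exact (hk φ).mul (hk (φ.comp (s : L →+* L)))
  refine ⟨mul_ne_zero h0 s0, fun w => ?_, a _ h2, a _ h3, a _ h4⟩
  have e := ord_gact s (gact s⁻¹ w) x
  rw [← gact_mul, mul_inv_cancel, gact_one, AlgEquiv.smul_def] at e
  rw [ord_mul w h0 s0, e]
  exact (h1 w).add (h1 _)

theorem fix (hI : IND_st) : FIX_st := by
  intro p _ K L _ _ _ _ _ hG x hx hx'
  obtain ⟨y, h1, h2, h3⟩ := hI _ hG
    (fun H => ∃ y : L, Good p y ∧ ¬ IsSquare y ∧ ∀ σ ∈ H, ∃ u : L, σ y = y * u ^ 2) ⊥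
    ⟨x, hx, hx', fun σ hσ => ⟨1, by rw [Subgroup.mem_bot.1 hσ]; simp⟩⟩ (by
      rintro H H' s - ⟨y, h1, h2, h3⟩ hs hss hc hH'
      have y0 := h1.1
      have step : ∀ z : L, (∀ σ ∈ H, ∃ u : L, σ z = z * u ^ 2) → (∃ u : L, s z = z * u ^ 2) →
          ∀ σ ∈ H', ∃ u : L, σ z = z * u ^ 2 := by
        rintro z hz ⟨u, hu⟩ σ hσ
        rcases (hH' σ).1 hσ with h | h
        · exact hz σ h
        · obtain ⟨v, hv⟩ := hz _ h
          refine ⟨v * (σ * s⁻¹) u, ?_⟩
          rw [show σ z = (σ * s⁻¹) (s z) by rw [← AlgEquiv.mul_apply, inv_mul_cancel_right], hu,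
            map_mul, map_pow, hv]
          ring
      by_cases hq : IsSquare (y * s y)
      · obtain ⟨u, hu⟩ := hq
        refine ⟨y, h1, h2, step y h3 ⟨u / y, ?_⟩⟩
        field_simp
        linear_combination hu
      · refine ⟨_, good_Ind h1 s, hq, step _ (fun σ hσ => ?_) ?_⟩
        · have h4 : s⁻¹ * σ * s ∈ H := by
            have h5 := hc _ (H.mul_mem (H.mul_mem (H.inv_mem hss) hσ) hss)
            rwa [show s * ((s * s)⁻¹ * σ * (s * s)) * s⁻¹ = s⁻¹ * σ * s by group] at h5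
          obtain ⟨u, hu⟩ := h3 σ hσ
          obtain ⟨v, hv⟩ := h3 _ h4
          refine ⟨u * s v, ?_⟩
          rw [map_mul, hu, show σ (s y) = s ((s⁻¹ * σ * s) y) by
            rw [← AlgEquiv.mul_apply, ← AlgEquiv.mul_apply]; congr 1; group, hv, map_mul, map_pow]
          ring
        · obtain ⟨u, hu⟩ := h3 _ hss
          refine ⟨u, ?_⟩
          rw [map_mul, ← AlgEquiv.mul_apply s s, hu]
          ring)
  exact ⟨y, h1, h2, fun σ => h3 σ trivial⟩

end Pool.Agent.MP_9b2bac_nt.Tw
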