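import Pool.Agent.MP_9b2bac_nt.Tw.Stmt

set_option autoImplicit false

open NumberField IsDedekindDomain Module

namespace Pool.Agent.MP_9b2bac_nt.Tw

open Pool.Agent.MP_f3cd89_nt

section
variable {K L : Type} [Field K] [Field L] [Algebra K L]

/-- the sign attached to a residue modulo two -/
def sg_Emb (L : Type) [Field L] (a : ZMod 2) : L := (-1) ^ a.val

theorem sg_add_Emb (a b : ZMod 2) : sg_Emb L (a + b) = sg_Emb L a * sg_Emb L b := by
  have h : ∀ a b : ZMod 2, ((-1 : ℤ)) ^ (a + b).val = (-1) ^ a.val * (-1) ^ b.val := by decide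
  have := congrArg (Int.cast : ℤ → L) (h a b)
  simpa [sg_Emb] using this

theorem sg_sq_Emb (a : ZMod 2) : sg_Emb L a * sg_Emb L a = 1 := by
  rw [sg_Emb, ← pow_add, ← two_mul, pow_mul]; simp

theorem sg_ne_Emb (a : ZMod 2) : sg_Emb L a ≠ 0 := left_ne_zero_of_mul_eq_one (sg_sq_Emb a)

theorem sg_map_Emb (g : L ≃ₐ[K] L) (a : ZMod 2) : g (sg_Emb L a) = sg_Emb L a := by
  simp [sg_Emb]

/-- the relation between two of the operators -/
def Rel_Emb (c : (L ≃ₐ[K] L) → (L ≃ₐ[K] L) → ZMod 2) (y : (L ≃ₐ[K] L) → L) (g h : L ≃ₐ[K] L) :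
    Prop := y g * g (y h) = sg_Emb L (c g h) * y (g * h)

variable {c : (L ≃ₐ[K] L) → (L ≃ₐ[K] L) → ZMod 2} {y : (L ≃ₐ[K] L) → L}

theorem key_Emb (hc : IsCoc c) {g h j : L ≃ₐ[K] L} (h1 : Rel_Emb c y g h)
    (h2 : Rel_Emb c y h j) : Rel_Emb c y (g * h) j ↔ Rel_Emb c y g (h * j) := by
  have h3 := congrArg (sg_Emb L) (hc g h j)
  rw [sg_add_Emb, sg_add_Emb] at h3
  have h4 := congrArg g h2
  simp only [map_mul, sg_map_Emb] at h4
  unfold Rel_Emb at *
  rw [AlgEquiv.mul_apply, ← mul_assoc]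
  constructor
  · intro h5
    refine mul_left_cancel₀ (sg_ne_Emb (c h j)) ?_
    linear_combination (-y g) * h4 + g (h (y j)) * h1 + sg_Emb L (c g h) * h5 + y (g * h * j) * h3
  · intro h5
    refine mul_left_cancel₀ (sg_ne_Emb (c g h)) ?_
    linear_combination y g * h4 - g (h (y j)) * h1 + sg_Emb L (c h j) * h5 - y (g * h * j) * h3

theorem extend_Emb (hc : IsCoc c) {H H' : Subgroup (L ≃ₐ[K] L)} {s : L ≃ₐ[K] L} (hs : s ∉ H)
    (hss : s * s ∈ H) (hn : ∀ h ∈ H, s * h * s⁻¹ ∈ H) (hH : ∀ g, g ∈ H' ↔ g ∈ H ∨ g * s⁻¹ ∈ H)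
    (h0 : ∀ g ∈ H, y g ≠ 0) (hy : ∀ g ∈ H, ∀ h ∈ H, Rel_Emb c y g h) {β : L} (hβ : β ≠ 0)
    (hA : ∀ j ∈ H, β * s (y j) = sg_Emb L (c s j) *
      (sg_Emb L (c (s * j * s⁻¹) s) * y (s * j * s⁻¹) * (s * j * s⁻¹) β))
    (hB : β * s β = sg_Emb L (c s s) * y (s * s)) :
    ∃ y' : (L ≃ₐ[K] L) → L, (∀ g ∈ H', y' g ≠ 0) ∧ ∀ g ∈ H', ∀ h ∈ H', Rel_Emb c y' g h := by
  classical
  let y' : (L ≃ₐ[K] L) → L := fun g =>
    if g ∈ H then y g else sg_Emb L (c (g * s⁻¹) s) * y (g * s⁻¹) * (g * s⁻¹) β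
  have e1 : ∀ g ∈ H, y' g = y g := fun g hg => if_pos hg
  have n1 : ∀ g ∈ H, g * s ∉ H := fun g hg h => hs ((H.mul_mem_cancel_left hg).1 h)
  have n2 : ∀ g ∈ H, s * g ∉ H := fun g hg h => hs ((H.mul_mem_cancel_right hg).1 h)
  have e2 : ∀ g ∈ H, y' (g * s) = sg_Emb L (c g s) * y g * g β := fun g hg => by
    simp only [y', if_neg (n1 g hg), mul_inv_cancel_right]
  have e3 : y' s = β := by
    have h1 := e2 1 H.one_mem
    have h2 := hy 1 H.one_mem 1 H.one_mem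
    have h3 := hc 1 1 s
    rw [Rel_Emb, mul_one, AlgEquiv.one_apply] at h2
    rw [one_mul, one_mul, add_right_inj] at h3
    rw [one_mul, mul_right_cancel₀ (h0 1 H.one_mem) h2, h3, sg_sq_Emb, one_mul] at h1
    exact h1
  have r1 : ∀ g ∈ H, ∀ h ∈ H, Rel_Emb c y' g h := fun g hg h hh => by
    rw [Rel_Emb, e1 g hg, e1 h hh, e1 _ (H.mul_mem hg hh)]
    exact hy g hg h hh
  have r2 : ∀ g ∈ H, Rel_Emb c y' g s := fun g hg => by
    rw [Rel_Emb, e1 g hg, e3, e2 g hg]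
    linear_combination (-(y g * g β)) * sg_sq_Emb (L := L) (c g s)
  have r3 : ∀ g ∈ H, Rel_Emb c y' s g := fun g hg => by
    rw [Rel_Emb, e1 g hg, e3, hA g hg]
    simp only [y', if_neg (n2 g hg)]
  have r4 : Rel_Emb c y' s s := by rw [Rel_Emb, e3, e1 _ hss, hB]
  have d : ∀ g ∈ H', g ∈ H ∨ ∃ h ∈ H, g = h * s := fun g hg =>
    ((hH g).1 hg).imp_right fun h => ⟨_, h, by simp⟩
  have r5 : ∀ g ∈ H, ∀ h ∈ H', Rel_Emb c y' g h := fun g hg h hh => by
    obtain h1 | ⟨h, h1, rfl⟩ := d h hh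
    · exact r1 g hg h h1
    · exact (key_Emb hc (r1 g hg h h1) (r2 h h1)).1 (r2 _ (H.mul_mem hg h1))
  have r6 : ∀ h ∈ H', Rel_Emb c y' s h := fun h hh => by
    obtain h1 | ⟨h, h1, rfl⟩ := d h hh
    · exact r3 h h1
    · refine (key_Emb hc (r3 h h1) (r2 h h1)).1 ?_
      have := (key_Emb hc (r2 _ (hn h h1)) r4).2 (r1 _ (hn h h1) _ hss)
      rwa [inv_mul_cancel_right] at this
  refine ⟨y', fun g hg => ?_, fun g hg h hh => ?_⟩
  · obtain h1 | ⟨g, h1, rfl⟩ := d g hg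
    · rw [e1 g h1]; exact h0 g h1
    · rw [e2 g h1]
      exact mul_ne_zero (mul_ne_zero (sg_ne_Emb _) (h0 g h1)) ((map_ne_zero g).2 hβ)
  · obtain h1 | ⟨g, h1, rfl⟩ := d g hg
    · exact r5 g h1 h hh
    · exact (key_Emb hc (r2 g h1) (r6 h hh)).2
        (r5 g h1 _ (H'.mul_mem ((hH s).2 (Or.inr (by simp))) hh))

theorem h90_Emb (H : Subgroup (L ≃ₐ[K] L)) [Finite H] (φ : (L ≃ₐ[K] L) → L) (h1 : φ 1 ≠ 0)
    (hφ : ∀ g ∈ H, ∀ h ∈ H, φ (g * h) = φ g * g (φ h)) :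
    ∃ b : L, b ≠ 0 ∧ ∀ g ∈ H, φ g * g b = b := by
  have := Fintype.ofFinite H
  have li := (linearIndependent_monoidHom L L).comp (fun k : H => ((k : L ≃ₐ[K] L) : L →* L))
    fun k k' h => Subtype.ext (AlgEquiv.ext fun x => DFunLike.congr_fun h x)
  obtain ⟨x, hx⟩ : ∃ x, ∑ k : H, φ k * (k : L ≃ₐ[K] L) x ≠ 0 := by
    by_contra! h
    refine h1 (Fintype.linearIndependent_iff.1 li (fun k => φ k) ?_ 1)
    ext x
    simpa using h x
  refine ⟨_, hx, fun g hg => ?_⟩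
  rw [map_sum, Finset.mul_sum, ← Equiv.sum_comp (Equiv.mulLeft (⟨g, hg⟩ : H))
    fun k : H => φ k * (k : L ≃ₐ[K] L) x]
  refine Finset.sum_congr rfl fun k _ => ?_
  simp [hφ g hg k k.2, mul_assoc]

theorem beta_Emb (hc : IsCoc c) {H : Subgroup (L ≃ₐ[K] L)} [Finite H] {s : L ≃ₐ[K] L}
    (hn : ∀ h ∈ H, s * h * s⁻¹ ∈ H) (hn' : ∀ h ∈ H, s⁻¹ * h * s ∈ H)
    (h0 : ∀ g ∈ H, y g ≠ 0) (hy : ∀ g ∈ H, ∀ h ∈ H, Rel_Emb c y g h) :
    ∃ β : L, β ≠ 0 ∧ ∀ j ∈ H, β * s (y j) = sg_Emb L (c s j) *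
      (sg_Emb L (c (s * j * s⁻¹) s) * y (s * j * s⁻¹) * (s * j * s⁻¹) β) := by
  obtain ⟨b, hb, h⟩ := h90_Emb H
    (fun k => s (y (s⁻¹ * k * s)) * sg_Emb L (c k s + c s (s⁻¹ * k * s)) / y k)
    (div_ne_zero (mul_ne_zero ((map_ne_zero s).2 (h0 _ (hn' 1 H.one_mem))) (sg_ne_Emb _))
      (h0 1 H.one_mem)) fun k hk k' hk' => by
      obtain ⟨j, hj⟩ : ∃ j, j = s⁻¹ * k * s := ⟨_, rfl⟩
      obtain ⟨j', hj'⟩ : ∃ j, j = s⁻¹ * k' * s := ⟨_, rfl⟩
      have e1 : s⁻¹ * (k * k') * s = j * j' := by rw [hj, hj']; group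
      have e2 : k * s = s * j := by rw [hj]; group
      have e3 : k' * s = s * j' := by rw [hj']; group
      have h1 := congrArg s (hy j (hj ▸ hn' k hk) j' (hj' ▸ hn' k' hk'))
      have h2 := hy k hk k' hk'
      have h3 : c (k * k') s + c s (j * j') + c j j' = c k s + c s j + (c k' s + c s j') + c k k' := by
        have a1 := hc k k' s
        have a2 := hc s j j'
        have a3 := hc k s j'
        have a4 : (2 : ZMod 2) = 0 := rfl
        rw [e3] at a1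
        rw [e2] at a3
        linear_combination a1 - a2 - a3 + (c (s * j) j' - c k k' - c s j') * a4
      have h4 := congrArg (sg_Emb L) h3
      have h5 : s (j (y j')) = k (s (y j')) := by
        rw [← AlgEquiv.mul_apply, ← AlgEquiv.mul_apply, e2]
      rw [Rel_Emb] at h2
      simp only [map_mul, sg_map_Emb, h5] at h1
      simp only [e1, ← hj, ← hj', map_div₀, map_mul, sg_map_Emb]
      rw [sg_add_Emb _ (c j j'), sg_add_Emb _ (c k k'), sg_add_Emb (c k s + c s j)] at h4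
      rw [div_mul_div_comm, div_eq_div_iff (h0 _ (H.mul_mem hk hk'))
        (mul_ne_zero (h0 k hk) ((map_ne_zero k).2 (h0 k' hk'))), h2]
      have q1 := sg_sq_Emb (L := L) (c j j')
      have q2 := sg_sq_Emb (L := L) (c k k')
      generalize sg_Emb L (c (k * k') s + c s (j * j')) = A at *
      generalize sg_Emb L (c k s + c s j) = B at *
      generalize sg_Emb L (c k' s + c s j') = C at *
      generalize sg_Emb L (c j j') = D at *
      generalize sg_Emb L (c k k') = E at *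
      linear_combination (-(B * C * y (k * k'))) * h1
        + s (y (j * j')) * y (k * k') * D * E * h4
        - s (y (j * j')) * y (k * k') * A * E * q1
        + s (y (j * j')) * y (k * k') * B * C * D * q2
  refine ⟨b⁻¹, inv_ne_zero hb, fun j hj => ?_⟩
  have h1 := h _ (hn j hj)
  have e1 : s⁻¹ * (s * j * s⁻¹) * s = j := by group
  have h2 := h0 _ (hn j hj)
  have h3 := (map_ne_zero (s * j * s⁻¹)).2 hb
  simp only [e1, sg_add_Emb] at h1
  have q1 := sg_sq_Emb (L := L) (c s j)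
  have q2 := sg_sq_Emb (L := L) (c (s * j * s⁻¹) s)
  rw [map_inv₀]
  generalize sg_Emb L (c s j) = A at *
  generalize sg_Emb L (c (s * j * s⁻¹) s) = B at *
  generalize (s * j * s⁻¹) b = b' at *
  field_simp at h1 ⊢
  linear_combination A * B * h1 - s (y j) * b' * B * B * q1 - s (y j) * b' * q2

variable [NumberField L]

theorem ord_sg_Emb (w : Pr L) (a : ZMod 2) {x : L} (hx : x ≠ 0) :
    ord w (sg_Emb L a * x) = ord w x := by
  have h := ord_mul w (sg_ne_Emb (L := L) a) (sg_ne_Emb a)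
  rw [sg_sq_Emb, ord_one] at h
  rw [ord_mul w (sg_ne_Emb a) hx]
  omega

theorem ord_inv_Emb (g : L ≃ₐ[K] L) (w : Pr L) (x : L) : ord (gact g w) x = ord w (g⁻¹ x) := by
  rw [← ord_gact g w (g⁻¹ x)]
  congr 1
  exact (g.apply_symm_apply x).symm

theorem fixpt_Emb {H : Subgroup (L ≃ₐ[K] L)} [Finite H]
    (h0 : ∀ g ∈ H, y g ≠ 0) (hy : ∀ g ∈ H, ∀ h ∈ H, Rel_Emb c y g h) :
    ∃ (B : L) (n : ℤ), ∀ g ∈ H, ∀ (t : L ≃ₐ[K] L) (w : Pr L),
      ord w (t B) / n = ord w (t (g B)) / n + ord w (t (y g)) := by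
  classical
  have := Fintype.ofFinite H
  refine ⟨∏ h : H, y h, Fintype.card H, fun g hg t w => ?_⟩
  have b0 : ∏ h : H, y h ≠ 0 := Finset.prod_ne_zero_iff.2 fun h _ => h0 h h.2
  have h1 : y g ^ Fintype.card H * g (∏ h : H, y h) = sg_Emb L (∑ h : H, c g h) * ∏ h : H, y h := by
    have h2 : sg_Emb L (∑ h : H, c g h) = ∏ h : H, sg_Emb L (c g h) :=
      Finset.induction_on (motive := fun S : Finset H =>
        sg_Emb L (∑ h ∈ S, c g h) = ∏ h ∈ S, sg_Emb L (c g h)) Finset.univ (by simp [sg_Emb])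
        fun _ _ ha ih => by rw [Finset.sum_insert ha, Finset.prod_insert ha, sg_add_Emb, ih]
    rw [h2, map_prod, ← Finset.card_univ, ← Finset.prod_const, ← Finset.prod_mul_distrib,
      ← Equiv.prod_comp (Equiv.mulLeft (⟨g, hg⟩ : H)) fun h : H => y h, ← Finset.prod_mul_distrib]
    exact Finset.prod_congr rfl fun h _ => hy g hg h h.2
  have h2 := congrArg (fun x => ord w (t x)) h1
  simp only [map_mul, map_pow, sg_map_Emb] at h2
  rw [ord_sg_Emb _ _ ((map_ne_zero t).2 b0), ord_mul _ (pow_ne_zero _ ((map_ne_zero t).2 (h0 g hg)))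
    ((map_ne_zero t).2 ((map_ne_zero g).2 b0)), ord_pow] at h2
  rw [← h2, add_comm, Int.add_mul_ediv_left _ _ (by exact_mod_cast Fintype.card_ne_zero)]

end

theorem emb (hI : IND_st) (hN : HNS_st) : EMB_st := by
  intro K L _ _ _ _ _ _ _ hG hU c hc
  suffices h : ∃ y : (L ≃ₐ[K] L) → L, (∀ g ∈ (⊤ : Subgroup (L ≃ₐ[K] L)), y g ≠ 0) ∧
      ∀ g ∈ (⊤ : Subgroup (L ≃ₐ[K] L)), ∀ h ∈ (⊤ : Subgroup (L ≃ₐ[K] L)), Rel_Emb c y g h by
    obtain ⟨y, h1, h2⟩ := h
    exact ⟨y, fun g => h1 g trivial, fun g h => h2 g trivial h trivial⟩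
  refine hI _ hG (fun H => ∃ y : (L ≃ₐ[K] L) → L, (∀ g ∈ H, y g ≠ 0) ∧
    ∀ g ∈ H, ∀ h ∈ H, Rel_Emb c y g h) ⊥ ⟨fun _ => sg_Emb L (c 1 1), fun _ _ => sg_ne_Emb _, ?_⟩ ?_
  · rintro g rfl h rfl
    rfl
  rintro H H' s - ⟨y, h0, hy⟩ hs hss hn hH
  have hn' : ∀ h ∈ H, s⁻¹ * h * s ∈ H := fun h hh => by
    have := H.mul_mem (H.mul_mem (H.inv_mem hss) (hn h hh)) hss
    rwa [show (s * s)⁻¹ * (s * h * s⁻¹) * (s * s) = s⁻¹ * h * s by group] at this
  obtain ⟨β, hβ, hA⟩ := beta_Emb hc hn hn' h0 hy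
  obtain ⟨B, n, hB⟩ := fixpt_Emb h0 hy
  have y0 := h0 _ hss
  obtain ⟨a, ha⟩ : ∃ a, a = sg_Emb L (c s s) * (β * s β / y (s * s)) := ⟨_, rfl⟩
  have sβ := (map_ne_zero s).2 hβ
  have q0 : β * s β / y (s * s) ≠ 0 := div_ne_zero (mul_ne_zero hβ sβ) y0
  have a0 : a ≠ 0 := ha ▸ mul_ne_zero (sg_ne_Emb _) q0
  let f : Pr L → ℤ := fun w => ord w β - ord w B / n + ord w (s B) / n
  have hf : f.support.Finite := (((ord_finite β).union (ord_finite B)).union
    (ord_finite (s B))).subset fun w hw => by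
      by_contra h
      simp only [Set.mem_union, Set.mem_ofPred_eq, not_or, not_not] at h
      exact hw (by simp only [f, h.1.1, h.1.2, h.2, Int.zero_ediv]; rfl)
  have f1 : ∀ h ∈ H, ∀ w, f (gact h w) = f w := fun h hh w => by
    obtain ⟨j, hj⟩ : ∃ j, j = s⁻¹ * h⁻¹ * s := ⟨_, rfl⟩
    have hj' : j ∈ H := hj ▸ hn' _ (H.inv_mem hh)
    have e1 : s * j * s⁻¹ = h⁻¹ := by rw [hj]; group
    have e2 : h⁻¹ (s B) = s (j B) := by
      rw [← AlgEquiv.mul_apply, ← AlgEquiv.mul_apply, ← e1, inv_mul_cancel_right]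
    have h1 := congrArg (ord w) (hA j hj')
    have n1 := h0 _ (H.inv_mem hh)
    have n2 := (map_ne_zero h⁻¹).2 hβ
    rw [e1, mul_assoc, ord_sg_Emb _ _ (mul_ne_zero (sg_ne_Emb _) (mul_ne_zero n1 n2)),
      ord_sg_Emb _ _ (mul_ne_zero n1 n2), ord_mul _ n1 n2,
      ord_mul _ hβ ((map_ne_zero s).2 (h0 j hj'))] at h1
    have h2 := hB j hj' s w
    have h3 := hB _ (H.inv_mem hh) 1 w
    simp only [f, ord_inv_Emb, e2, AlgEquiv.one_apply] at h3 ⊢
    omega
  have f2 : ∀ w, ord w a = f w + f (gact s w) := fun w => by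
    have e1 : gact s w = gact (s * s) (gact s⁻¹ w) := by
      rw [← gact_mul, mul_inv_cancel_right]
    have h3 := hB _ hss 1 w
    rw [e1, f1 _ hss, ha, ord_sg_Emb _ _ q0, ord_div _ (mul_ne_zero hβ sβ) y0, ord_mul _ hβ sβ]
    simp only [f, ord_inv_Emb, inv_inv, AlgEquiv.one_apply, AlgEquiv.mul_apply] at h3 ⊢
    omega
  have q1 := sg_sq_Emb (L := L) (c s s)
  have k0 : a * y (s * s) = sg_Emb L (c s s) * (β * s β) := by
    rw [ha, mul_assoc, div_mul_cancel₀ _ y0]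
  have k1 : s a = a := by
    have h1 := hA _ hss
    have h2 := hc s s s
    have h3 := congrArg s k0
    rw [add_comm (c s s), add_left_inj] at h2
    rw [show s * (s * s) * s⁻¹ = s * s by group, ← h2, AlgEquiv.mul_apply] at h1
    simp only [map_mul, sg_map_Emb] at h3
    have q2 := sg_sq_Emb (L := L) (c (s * s) s)
    refine mul_right_cancel₀ (mul_ne_zero (mul_ne_zero y0 hβ) ((map_ne_zero s).2 y0)) ?_
    linear_combination y (s * s) * β * h3 - β * s (y (s * s)) * k0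
      - sg_Emb L (c s s) * β * s β * h1
      - sg_Emb L (c s s) * β * s β * y (s * s) * s (s β) * q2
  have k2 : ∀ h ∈ H, h a = a := fun h hh => by
    obtain ⟨j, hj⟩ : ∃ j, j = s⁻¹ * h * s := ⟨_, rfl⟩
    obtain ⟨i, hi⟩ : ∃ i, i = s⁻¹ * j * s := ⟨_, rfl⟩
    have hj' : j ∈ H := hj ▸ hn' _ hh
    have hi' : i ∈ H := hi ▸ hn' _ hj'
    have e1 : s * j * s⁻¹ = h := by rw [hj]; group
    have e2 : s * i * s⁻¹ = j := by rw [hi]; group
    have e3 : h * s = s * j := by rw [hj]; group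
    have e4 : j * s = s * i := by rw [hi]; group
    have e5 : s * s * i = h * (s * s) := by rw [hi, hj]; group
    have e6 : s (j β) = h (s β) := by rw [← AlgEquiv.mul_apply, ← e3, AlgEquiv.mul_apply]
    have h1 := hA j hj'
    have h2 := congrArg s (hA i hi')
    have h3 := hy h hh _ hss
    have h4 := hy _ hss i hi'
    have h5 := congrArg h k0
    have h6 : c s j + c h s + (c s i + c j s) = c (s * s) i + c h (s * s) := by
      have a1 := hc s s i
      have a2 := hc h s s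
      have a3 := hc s j s
      have a4 : (2 : ZMod 2) = 0 := rfl
      rw [e3] at a2
      rw [e4] at a3
      linear_combination a2 - a1 - a3 + (c s j + c s s - c s (s * i)) * a4
    have h7 := congrArg (sg_Emb L) h6
    rw [e1] at h1
    rw [e2] at h2
    rw [Rel_Emb] at h3 h4
    rw [e5, AlgEquiv.mul_apply] at h4
    simp only [map_mul, sg_map_Emb, e6] at h2 h5
    simp only [sg_add_Emb] at h7
    have q2 := sg_sq_Emb (L := L) (c (s * s) i)
    have n1 := h0 _ (H.mul_mem hh hss)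
    have n2 := (map_ne_zero s).2 (h0 j hj')
    refine mul_right_cancel₀ (mul_ne_zero (mul_ne_zero n1 n2) y0) ?_
    have h8 : β * s β * s (s (y i)) = sg_Emb L (c (s * s) i) * sg_Emb L (c h (s * s)) *
        (y h * h β * h (s β)) := by
      refine mul_right_cancel₀ n2 ?_
      linear_combination s β * s (s (y i)) * h1 + sg_Emb L (c s j) * sg_Emb L (c h s) * y h * h β * h2
        + y h * h β * h (s β) * s (y j) * h7
    have q3 := sg_sq_Emb (L := L) (c h (s * s))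
    generalize sg_Emb L (c (s * s) i) = A at *
    generalize sg_Emb L (c h (s * s)) = E at *
    have h9 : h a * y (h * (s * s)) = a * y (h * (s * s)) := by
      have h10 : h a * (E * y (h * (s * s))) = sg_Emb L (c s s) * (y h * h β * h (s β)) := by
        linear_combination y h * h5 - h a * h3
      have h11 : a * (A * y (h * (s * s))) = sg_Emb L (c s s) * (β * s β * s (s (y i))) := by
        linear_combination s (s (y i)) * k0 - a * h4
      linear_combination E * h10 - A * h11 - A * sg_Emb L (c s s) * h8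
        - h a * y (h * (s * s)) * q3 + a * y (h * (s * s)) * q2
        - sg_Emb L (c s s) * E * (y h * h β * h (s β)) * q2
    linear_combination s (y j) * y (s * s) * h9
  obtain ⟨μ, m1, m2⟩ := hN K L hU H s hs hss hn a (Finsupp.ofSupportFinite f hf) a0 k2 k1 f1 f2
  have m0 : μ * s μ ≠ 0 := m2 ▸ a0
  refine extend_Emb hc hs hss hn hH h0 hy (div_ne_zero hβ (left_ne_zero_of_mul m0))
    (fun j hj => ?_) ?_
  · rw [map_div₀, m1 _ (hn j hj), div_mul_eq_mul_div, hA j hj]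
    ring
  · rw [map_div₀, div_mul_div_comm, m2, div_eq_iff a0, ha]
    field_simp
    linear_combination (-1 : L) * q1

end Pool.Agent.MP_9b2bac_nt.Tw
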