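import Pool.Agent.MP_9b2bac_nt.Tw.Stmt

/-! The count of ambiguous classes. -/

set_option autoImplicit false

open NumberField IsDedekindDomain Module

namespace Pool.Agent.MP_9b2bac_nt.Tw

open Pool.Agent.MP_f3cd89_nt AddSubgroup

/-- comparison of two indices along a correspondence -/
theorem corr_Amb {Z G G' : Type} [AddCommGroup Z] [AddCommGroup G] [AddCommGroup G']
    (p : Z →+ G) (q : Z →+ G') (H X : AddSubgroup G) (K Y : AddSubgroup G')
    (hX : X ≤ p.range) (hY : q.range ≤ Y) (h : ∀ z, q z ∈ K → p z ∈ H)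
    (hK : K.relIndex Y ≠ 0) : H.relIndex X ≠ 0 ∧ H.relIndex X ≤ K.relIndex Y := by
  have h1 : K.relIndex q.range ≠ 0 := fun h0 => hK (relIndex_eq_zero_of_le_right hY h0)
  have h2 : K.relIndex q.range ≤ K.relIndex Y := relIndex_le_of_le_right hY hK
  rw [← index_comap] at h1 h2
  have h3 : (H.comap p).index ∣ (K.comap q).index := index_dvd_of_le (fun z hz => h z hz)
  have h4 : (H.comap p).index ≠ 0 := fun h0 => h1 (by simpa [h0] using h3)
  have h5 := Nat.le_of_dvd (Nat.pos_of_ne_zero h1) h3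
  rw [index_comap] at h4 h5
  exact ⟨fun h0 => h4 (relIndex_eq_zero_of_le_right hX h0),
    (relIndex_le_of_le_right hX h4).trans (h5.trans h2)⟩

/-- a quotient in which two nonzero classes always agree -/
theorem two_Amb {I : Type} [AddCommGroup I] (W T : AddSubgroup I)
    (h : ∀ x ∈ T, ∀ y ∈ T, x ∈ W ∨ y ∈ W ∨ x - y ∈ W) : W.relIndex T ≤ 2 := by
  by_cases h1 : T ≤ W
  · rw [relIndex_eq_one.2 h1]; omega
  · obtain ⟨y, hy, hy'⟩ := SetLike.not_le_iff_exists.1 h1
    refine (index_eq_two_iff.2 ⟨⟨-y, neg_mem hy⟩, fun b => ?_⟩).le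
    have e1 : b + ⟨-y, neg_mem hy⟩ ∈ W.addSubgroupOf T ↔ b.1 - y ∈ W := by
      rw [mem_addSubgroupOf, sub_eq_add_neg]; rfl
    rw [e1, mem_addSubgroupOf]
    by_cases hb : b.1 ∈ W
    · refine Or.inr ⟨hb, fun h2 => hy' ?_⟩
      simpa using sub_mem hb h2
    · exact Or.inl ⟨((h _ b.2 y hy).resolve_left hb).resolve_left hy', hb⟩

theorem core_Amb {A I : Type} [AddCommGroup A] [AddCommGroup I] (D N : A →+ A) (D' N' : I →+ I)
    (j : A →+ I) (hjD : ∀ a, j (D a) = D' (j a)) (hjN : ∀ a, j (N a) = N' (j a))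
    (hDN : ∀ x, D (N x) = 0) (hND : ∀ x, N (D x) = 0)
    (hDN' : ∀ x, D' (N' x) = 0) (hND' : ∀ x, N' (D' x) = 0) (hP : j.range.index ≠ 0)
    (h90 : ∀ a, N a = 0 → ∃ b, a = D b)
    (hi : (N'.range ⊔ D.ker.map j).relIndex D'.ker ≤ 2)
    (h0 : (j.ker.map N).relIndex (j.ker ⊓ D.ker) ≠ 0)
    (h1 : (j.ker.map D).relIndex (j.ker ⊓ N.ker) = 2 * (j.ker.map N).relIndex (j.ker ⊓ D.ker))
    (a : A) (e : I) (ha : D a = 0) (he : j a = N' e) : ∃ b, a = N b := by
  have hPD : j.range ≤ j.range.comap D' := by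
    rintro _ ⟨a, rfl⟩; exact ⟨D a, hjD a⟩
  have hNK : N'.range ≤ D'.ker := by rintro _ ⟨x, rfl⟩; exact hDN' x
  have hFP : D.ker.map j ≤ j.range ⊓ D'.ker := by
    rintro _ ⟨x, hx, rfl⟩
    refine ⟨⟨x, rfl⟩, ?_⟩
    show D' (j x) = 0
    rw [← hjD, show D x = 0 from hx, map_zero]
  have hK : D'.range ⊔ j.range ≤ (D.ker.map j).comap N' := by
    refine sup_le ?_ ?_
    · rintro _ ⟨x, rfl⟩
      show N' (D' x) ∈ D.ker.map j
      rw [hND']; exact zero_mem _
    · rintro _ ⟨x, rfl⟩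
      exact ⟨N x, hDN x, hjN x⟩
  have hC : D'.ker ⊔ j.range ≤ j.range.comap D' := sup_le (fun x hx => by
    show D' x ∈ j.range
    rw [show D' x = 0 from hx]; exact zero_mem _) hPD
  -- invariants and coinvariants of the class group
  have a1 := relIndex_mul_index hPD
  have a2 := relIndex_mul_index (le_sup_right : j.range ≤ D'.range ⊔ j.range)
  rw [index_comap] at a1
  rw [relIndex_sup_right] at a2
  have a3 : j.range.relIndex (j.range.comap D') = (D'.range ⊔ j.range).index := by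
    have : j.range.relIndex D'.range ≠ 0 := fun h => hP (by rw [← a2, h, zero_mul])
    exact Nat.eq_of_mul_eq_mul_left (Nat.pos_of_ne_zero this) (by rw [a2, mul_comm, a1])
  have a4 : (D'.range ⊔ j.range).index ≠ 0 := fun h => hP (by rw [← a2, h, mul_zero])
  -- the norm map on coinvariants
  have b1 := relIndex_mul_index hK
  rw [index_comap] at b1
  have b2 := relIndex_mul_relIndex (D.ker.map j) (N'.range ⊔ D.ker.map j) D'.ker le_sup_right
    (sup_le hNK (hFP.trans inf_le_right))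
  rw [relIndex_sup_right] at b2
  -- invariant classes
  have c1 := relIndex_mul_relIndex j.range (D'.ker ⊔ j.range) _ le_sup_right hC
  rw [relIndex_sup_right, a3, ← b1] at c1
  have c2 := relIndex_mul_relIndex (D.ker.map j) (j.range ⊓ D'.ker) D'.ker hFP inf_le_right
  rw [inf_relIndex_right, ← b2] at c2
  have hE : j.ker.map N ≤ j.ker ⊓ D.ker ⊓ N.range := by
    rintro _ ⟨x, hx, rfl⟩
    refine ⟨⟨?_, hDN x⟩, x, rfl⟩
    show j (N x) = 0
    rw [hjN, show j x = 0 from hx, map_zero]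
  have c3 := relIndex_mul_relIndex (j.ker.map N) (j.ker ⊓ D.ker ⊓ N.range) (j.ker ⊓ D.ker) hE
    inf_le_left
  have u0 : (j.ker.map N).relIndex (j.ker ⊓ D.ker ⊓ N.range) ≠ 0 := fun h => h0 (by
    rw [← c3, h, zero_mul])
  let Z : AddSubgroup (I × A) :=
    (D'.comp (AddMonoidHom.fst I A) - j.comp (AddMonoidHom.snd I A)).ker
  have mZ : ∀ z : I × A, z ∈ Z ↔ D' z.1 = j z.2 := fun z => by
    rw [AddMonoidHom.mem_ker]; simp [sub_eq_zero]
  have c4 := (corr_Amb ((AddMonoidHom.fst I A).comp Z.subtype)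
    (N.comp ((AddMonoidHom.snd I A).comp Z.subtype)) (D'.ker ⊔ j.range) (j.range.comap D')
    (j.ker.map N) (j.ker ⊓ D.ker ⊓ N.range)
    (by rintro x ⟨y, hy⟩; exact ⟨⟨(x, y), (mZ _).2 hy.symm⟩, rfl⟩)
    (by
      rintro _ ⟨⟨⟨x, y⟩, hz⟩, rfl⟩
      have hz' : D' x = j y := (mZ _).1 hz
      refine ⟨⟨?_, hDN y⟩, y, rfl⟩
      show j (N y) = 0
      rw [hjN, ← hz', hND'])
    (by
      rintro ⟨⟨x, y⟩, hz⟩ ⟨ε, hε, hey⟩
      have hz' : D' x = j y := (mZ _).1 hz
      have hey' : N ε = N y := hey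
      obtain ⟨b, hb⟩ := h90 (y - ε) (by rw [map_sub, hey', sub_self])
      show x ∈ D'.ker ⊔ j.range
      rw [show x = (x - j b) + j b by abel]
      refine add_mem (mem_sup_left ?_) (mem_sup_right ⟨b, rfl⟩)
      show D' (x - j b) = 0
      rw [map_sub, hz', ← hjD, ← hb, map_sub, show j ε = 0 from hε]; simp) u0).2
  let Y : AddSubgroup A := (j.comp D).ker
  have o0 : (j.ker.map D).relIndex (j.ker ⊓ N.ker) ≠ 0 := by
    rw [h1]; exact mul_ne_zero two_ne_zero h0
  have t0 := (corr_Amb (j.comp Y.subtype) (D.comp Y.subtype) (D.ker.map j) (j.range ⊓ D'.ker)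
    (j.ker.map D) (j.ker ⊓ N.ker)
    (by rintro _ ⟨⟨x, rfl⟩, hx⟩; exact ⟨⟨x, (hjD x).trans hx⟩, rfl⟩)
    (by rintro _ ⟨⟨x, hx⟩, rfl⟩; exact ⟨hx, hND x⟩)
    (by
      rintro ⟨x, hx⟩ ⟨ε, hε, h⟩
      have h' : D ε = D x := h
      refine ⟨x - ε, ?_, ?_⟩
      · show D (x - ε) = 0
        rw [map_sub, h', sub_self]
      · show j (x - ε) = j x
        rw [map_sub, show j ε = 0 from hε, sub_zero]) o0).1
  have c5 := (corr_Amb (D.comp Y.subtype) (j.comp Y.subtype) (j.ker.map D) (j.ker ⊓ N.ker)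
    (D.ker.map j) (j.range ⊓ D'.ker)
    (by
      rintro x ⟨hx, hx'⟩
      obtain ⟨b, rfl⟩ := h90 x hx'
      exact ⟨⟨b, hx⟩, rfl⟩)
    (by rintro _ ⟨⟨x, hx⟩, rfl⟩; exact ⟨⟨x, rfl⟩, (hjD x).symm.trans hx⟩)
    (by
      rintro ⟨x, hx⟩ ⟨γ, hγ, h⟩
      have h' : j γ = j x := h
      refine ⟨x - γ, ?_, ?_⟩
      · show j (x - γ) = 0
        rw [map_sub, h', sub_self]
      · show D (x - γ) = D x
        rw [map_sub, show D γ = 0 from hγ, sub_zero]) t0).2
  rw [h1, ← c3] at c5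
  rw [← b1] at a4
  rw [← c3] at h0
  have fin : (D'.range ⊔ j.range).relIndex ((D.ker.map j).comap N') = 1 ∧
      (j.ker ⊓ D.ker ⊓ N.range).relIndex (j.ker ⊓ D.ker) = 1 := by
    generalize (D'.range ⊔ j.range).relIndex ((D.ker.map j).comap N') = k at *
    generalize (j.ker ⊓ D.ker ⊓ N.range).relIndex (j.ker ⊓ D.ker) = u' at *
    generalize (j.ker.map N).relIndex (j.ker ⊓ D.ker ⊓ N.range) = u at *
    generalize (D.ker.map j).relIndex N'.range = m at *
    generalize (N'.range ⊔ D.ker.map j).relIndex D'.ker = i at *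
    generalize (D.ker.map j).relIndex (j.range ⊓ D'.ker) = t at *
    generalize j.range.relIndex D'.ker = n at *
    generalize (D'.ker ⊔ j.range).relIndex (j.range.comap D') = w at *
    have k0 := Nat.pos_of_ne_zero (left_ne_zero_of_mul a4)
    have m0 := Nat.pos_of_ne_zero (right_ne_zero_of_mul a4)
    have v0 := Nat.pos_of_ne_zero (right_ne_zero_of_mul h0)
    have h3 : (2 * m) * (u' * k) ≤ (2 * m) * 1 :=
      calc (2 * m) * (u' * k) = 2 * u' * (n * w) := by rw [c1]; ring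
        _ ≤ 2 * u' * (n * u) := by gcongr
        _ = 2 * (u * u') * n := by ring
        _ ≤ t * n := by gcongr
        _ = m * i := c2
        _ ≤ m * 2 := by gcongr
        _ = _ := by ring
    have h4 := Nat.le_of_mul_le_mul_left h3 (by omega)
    constructor <;> nlinarith
  have f1 := relIndex_eq_one.1 fin.1 (show e ∈ (D.ker.map j).comap N' from ⟨a, ha, he⟩)
  obtain ⟨_, ⟨y, rfl⟩, _, ⟨b, rfl⟩, rfl⟩ := mem_sup.1 f1
  obtain ⟨-, c, hc⟩ := relIndex_eq_one.1 fin.2 (show a - N b ∈ j.ker ⊓ D.ker from ⟨by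
    show j (a - N b) = 0
    rw [map_sub, he, map_add, hND', hjN, zero_add, sub_self], by
    show D (a - N b) = 0
    rw [map_sub, ha, hDN, sub_self]⟩)
  exact ⟨b + c, by rw [map_add, hc]; abel⟩

theorem amb : AMB_st := by
  intro A I _ _ σ τ j hσ hτ hj hP h90 hi h0 h1 a e ha he
  have s2 : ∀ x, σ (σ x) = x := fun x => by
    have := DFunLike.congr_fun hσ x
    rwa [pow_two] at this
  have t2 : ∀ x, τ (τ x) = x := fun x => by
    have := DFunLike.congr_fun hτ x
    rwa [pow_two] at this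
  have eN : ∀ x, nmH σ 2 x = x + σ x := fun x => by
    rw [nmH, Finset.sum_range_succ, Finset.sum_range_one, pow_zero, pow_one]; rfl
  have eN' : ∀ x, nmH τ 2 x = x + τ x := fun x => by
    rw [nmH, Finset.sum_range_succ, Finset.sum_range_one, pow_zero, pow_one]; rfl
  have eD : ∀ x, (σ - 1 : AddMonoid.End A) x = σ x - x := fun x => rfl
  have eD' : ∀ x, (τ - 1 : AddMonoid.End I) x = τ x - x := fun x => rfl
  obtain ⟨b, hb⟩ := core_Amb (σ - 1 : AddMonoid.End A) (nmH σ 2) (τ - 1 : AddMonoid.End I)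
    (nmH τ 2) j (fun x => by erw [eD, eD']; rw [map_sub, hj])
    (fun x => by erw [eN, eN']; rw [map_add, hj])
    (fun x => by erw [eD, eN]; rw [map_add, s2]; abel)
    (fun x => by erw [eN, eD]; rw [map_sub, s2]; abel)
    (fun x => by erw [eD', eN']; rw [map_add, t2]; abel)
    (fun x => by erw [eN', eD']; rw [map_sub, t2]; abel) hP
    (fun x hx => h90 x ((eN x).symm.trans hx))
    (two_Amb _ _ fun x hx y hy => by
      obtain ⟨z, hz, c, f, hc, hf⟩ := hi x y (sub_eq_zero.1 hx) (sub_eq_zero.1 hy)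
      have : z ∈ AddMonoidHom.range (nmH τ 2) ⊔
          (AddMonoidHom.ker (σ - 1 : AddMonoid.End A)).map j := by
        rw [hf, add_comm]
        exact add_mem (mem_sup_left ⟨f, eN' f⟩) (mem_sup_right ⟨c, sub_eq_zero.2 hc, rfl⟩)
      rcases hz with rfl | rfl | rfl
      exacts [Or.inl this, Or.inr (Or.inl this), Or.inr (Or.inr this)])
    h0 h1 a e (sub_eq_zero.2 ha) (he.trans (eN' e).symm)
  exact ⟨b, hb.trans (eN b)⟩

end Pool.Agent.MP_9b2bac_nt.Tw
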