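import Pool.Agent.MP_9b2bac_nt.Tw.Two
import Pool.Agent.MP_9b2bac_nt.B.Defs

/-! The tower in the form used by the method of Baker. -/

set_option autoImplicit false

open NumberField IsDedekindDomain Module

namespace Pool.Agent.MP_9b2bac_nt.Tw

open Pool.Agent.MP_f3cd89_nt

theorem red_of_spl {l : ℕ} [Fact l.Prime] {K : Type} [Field K] [NumberField K] (h : Spl ℚ_[l] K)
    (x : 𝓞 K) (hx : (l : 𝓞 K) ∣ x ^ 2) : (l : 𝓞 K) ∣ x := by
  rcases eq_or_ne x 0 with rfl | x0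
  · exact dvd_zero _
  have l0 : (l : 𝓞 K) ≠ 0 := Nat.cast_ne_zero.2 (Fact.out : l.Prime).ne_zero
  have l1 : (l : K) ≠ 0 := Nat.cast_ne_zero.2 (Fact.out : l.Prime).ne_zero
  have x1 : (x : K) ≠ 0 := by simpa using x0
  obtain ⟨a, ha⟩ := exists_int (x := (x : K) / l) fun w => by
    rw [ord_div w x1 l1, sub_nonneg]
    by_cases hw : (l : 𝓞 K) ∈ w.asIdeal
    · rw [two.1 l K h w hw]
      have h1 : x ∈ w.asIdeal := w.isPrime.mem_of_pow_mem 2 (Ideal.mem_of_dvd _ hx hw)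
      have h2 := ord_nonneg w x
      have h3 := (ord_eq_zero_iff w x0).not_left.2 h1
      omega
    · have h1 := (ord_eq_zero_iff w l0).2 hw
      rw [show ord w (l : K) = 0 by simpa using h1]
      exact ord_nonneg w x
  refine ⟨a, RingOfIntegers.coe_injective ?_⟩
  rw [map_mul, map_natCast]
  change (x : K) = l * (a : K)
  rw [ha, mul_div_cancel₀ _ l1]

theorem tow_of_tower (h : TOWER_st) : B.TOW_st := by
  obtain ⟨C, hC⟩ := h
  refine ⟨C, 0, fun q _ _ m => ?_⟩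
  obtain ⟨K, _, _, h1, h2, h3, h4, h5, -⟩ := hC q (m + 1) (by omega)
  exact ⟨K, _, inferInstance, h1, h2, h4, fun x hx => by simpa using red_of_spl h5 x (by simpa using hx),
    h2 ▸ h3⟩

end Pool.Agent.MP_9b2bac_nt.Tw
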