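import Pool.Agent.MP_9b2bac_nt.Tw.Stmt

/-! The base field of the tower. -/

set_option autoImplicit false

open NumberField IsDedekindDomain Module

namespace Pool.Agent.MP_9b2bac_nt.Tw

open Pool.Agent.MP_f3cd89_nt

theorem quad_Base (m : ℕ) : ∃ c : ℕ, ¬ IsSquare m → ∃ (K : Type) (_ : Field K)
    (_ : NumberField K) (y : K), finrank ℚ K = 2 ∧ (discr K).natAbs ≤ c ∧ y ^ 2 = m ∧
      ∀ z : K, ∃ r s : ℚ, z = r + s * y := by
  by_cases h : IsSquare m
  · exact ⟨0, fun h' => absurd h h'⟩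
  have : Fact (∀ r : ℚ, r ^ 2 ≠ (m : ℚ) + 0 * r) := ⟨fun r e =>
    h (Rat.isSquare_natCast_iff.1 ⟨r, by linear_combination -e⟩)⟩
  have : NumberField (QuadraticAlgebra ℚ (m : ℚ) 0) := {}
  refine ⟨(discr (QuadraticAlgebra ℚ (m : ℚ) 0)).natAbs, fun _ =>
    ⟨QuadraticAlgebra ℚ (m : ℚ) 0, inferInstance, this, QuadraticAlgebra.omega,
      QuadraticAlgebra.finrank_eq_two _ _, le_rfl, ?_, fun z => ⟨z.re, z.im, ?_⟩⟩⟩
  · ext <;> simp [sq]
  · ext <;> simp

theorem spl_Base {k K : Type} [Field k] [Field K] {y : K} {m : ℕ} (hy : y ^ 2 = m)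
    (hz : ∀ z : K, ∃ r s : ℚ, z = r + s * y) (hm : IsSquare (m : k)) : Spl k K := by
  intro ψ
  obtain ⟨e, he⟩ := hm
  have h1 : ψ y ^ 2 = algebraMap k (AlgebraicClosure k) e ^ 2 := by
    rw [← map_pow, hy, ← map_pow, sq, ← he, map_natCast, map_natCast]
  obtain ⟨e', he'⟩ : ∃ e' : k, ψ y = algebraMap k _ e' := by
    rcases sq_eq_sq_iff_eq_or_eq_neg.1 h1 with h | h
    · exact ⟨e, h⟩
    · exact ⟨-e, by rw [h, map_neg]⟩
  have h2 : ∀ x : K, ∃ u : k, ψ x = algebraMap k _ u := fun x => by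
    obtain ⟨r, s, rfl⟩ := hz x
    exact ⟨r + s * e', by simp [he']⟩
  choose φ hφ using h2
  have inj := (algebraMap k (AlgebraicClosure k)).injective
  exact ⟨{ toFun := φ
           map_one' := inj (by rw [← hφ]; simp)
           map_mul' := fun a b => inj (by rw [map_mul, ← hφ, ← hφ, ← hφ, map_mul])
           map_zero' := inj (by rw [← hφ]; simp)
           map_add' := fun a b => inj (by rw [map_add, ← hφ, ← hφ, ← hφ, map_add]) }, hφ⟩

theorem sq_Base {k : Type} [Field k] [CharZero k] {A : Finset ℕ} {s : ℕ}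
    (hA : A.card = 2 * (s + 1)) (h0 : ∀ q ∈ A, q.Prime)
    (h : ∀ q ∈ A, ∀ q' ∈ A, IsSquare ((q : k) * q')) : IsSquare ((∏ q ∈ A, q : ℕ) : k) := by
  obtain ⟨q', hq⟩ : A.Nonempty := Finset.card_pos.1 (by omega)
  have q0 : (q' : k) ≠ 0 := Nat.cast_ne_zero.2 (h0 q' hq).ne_zero
  obtain ⟨r, hr⟩ := Finset.isSquare_prod (fun q : ℕ => (q : k) * q') fun q hq' => h q hq' q' hq
  rw [Finset.prod_mul_distrib, Finset.prod_const, hA] at hr
  refine ⟨r / (q' : k) ^ (s + 1), ?_⟩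
  rw [Nat.cast_prod, div_mul_div_comm, ← hr, ← pow_add, ← two_mul, mul_div_cancel_right₀]
  exact pow_ne_zero _ q0

theorem fac_Base {B : Finset ℕ} (h0 : ∀ q ∈ B, q.Prime) (q : ℕ) :
    (∏ x ∈ B, x).factorization q = if q ∈ B then 1 else 0 := by
  rw [Nat.factorization_prod fun x hx => (h0 x hx).ne_zero, Finsupp.finsetSum_apply,
    Finset.sum_congr rfl fun x hx => by rw [(h0 x hx).factorization, Finsupp.single_apply],
    Finset.sum_ite_eq']

theorem even_Base {n : ℕ} (h : IsSquare n) (q : ℕ) : Even (n.factorization q) := by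
  obtain ⟨r, rfl⟩ := h
  rw [← sq, Nat.factorization_pow]
  simp

theorem ev_Base {K : Type} [Field K] [NumberField K] {y : K} {n n' : ℕ} (hn : n ≠ 0)
    (hn' : n' ≠ 0) (h : n.Coprime n') (hy : y ^ 2 = (n * n' : ℕ)) : Ev (n : K) := by
  intro w
  have key : ∀ j : ℕ, j ≠ 0 → (j : 𝓞 K) ∉ w.asIdeal → ord w (j : K) = 0 := fun j hj h1 => by
    simpa using (ord_eq_zero_iff w (a := (j : 𝓞 K)) (Nat.cast_ne_zero.2 hj)).2 h1
  by_cases h1 : (n : 𝓞 K) ∈ w.asIdeal
  · have := w.isPrime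
    have h2 := key n' hn' (Ideal.IsPrime.notMem_of_isCoprime_of_mem h.cast h1)
    have h3 := ord_pow w y 2
    rw [hy, Nat.cast_mul, ord_mul w (Nat.cast_ne_zero.2 hn) (Nat.cast_ne_zero.2 hn'), h2,
      add_zero] at h3
    exact ⟨ord w y, by rw [h3]; push_cast; ring⟩
  · rw [key n hn h1]
    exact Even.zero

theorem rat_Base {K : Type} [Field K] [CharZero K] {y : K} {m n : ℕ} (hm : ¬ IsSquare m)
    (hy : y ^ 2 = m) (hz : ∀ z : K, ∃ r s : ℚ, z = r + s * y) (h : IsSquare (n : K)) :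
    IsSquare n ∨ IsSquare (n * m) := by
  obtain ⟨z, h⟩ := h
  obtain ⟨r, s, rfl⟩ := hz z
  rcases eq_or_ne s 0 with rfl | hs
  · refine Or.inl (Rat.isSquare_natCast_iff.1 ⟨r, ?_⟩)
    have : (n : K) = r * r := by simpa using h
    exact_mod_cast this
  rcases eq_or_ne r 0 with rfl | hr
  · refine Or.inr (Rat.isSquare_natCast_iff.1 ⟨s * m, ?_⟩)
    have : (n : K) * m = s * m * (s * m) := by
      rw [h, Rat.cast_zero]
      linear_combination (s : K) ^ 2 * m * hy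
    exact_mod_cast this
  · refine absurd (Rat.isSquare_natCast_iff.1 ⟨(n - r ^ 2 - s ^ 2 * m) / (2 * r * s), ?_⟩) hm
    have r0 : (r : K) ≠ 0 := Rat.cast_ne_zero.2 hr
    have s0 : (s : K) ≠ 0 := Rat.cast_ne_zero.2 hs
    have h1 : y = (n - r ^ 2 - s ^ 2 * m) / (2 * r * s) := by
      rw [eq_div_iff (by simp [r0, s0])]
      linear_combination -h - (s : K) ^ 2 * hy
    rw [h1, sq] at hy
    exact_mod_cast hy.symm

theorem base (hS : SQB_st) : BASE_st := by
  intro t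
  classical
  choose F hF using quad_Base
  obtain ⟨Q, hQ, cQ⟩ := Nat.infinite_setOfPred_prime.exists_subset_card_eq (256 * (2 * (t + 1)))
  refine ⟨∑ A ∈ Q.powerset, F (∏ q ∈ A, q), fun p _ => ?_⟩
  obtain ⟨f2, h2⟩ := hS.2 2
  obtain ⟨fp, hp⟩ := hS.2 p
  obtain ⟨v, -, hv⟩ := Finset.exists_le_card_fiber_of_mul_le_card_of_maps_to (s := Q)
    (t := Finset.univ) (f := fun q : ℕ => (f2 q, fp q)) (n := 2 * (t + 1))
    (fun _ _ => Finset.mem_univ _) Finset.univ_nonempty (by simp [cQ])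
  obtain ⟨A, hA, cA⟩ := Finset.exists_subset_card_eq hv
  have aQ : A ⊆ Q := hA.trans (Finset.filter_subset _ _)
  have pA : ∀ q ∈ A, q.Prime := fun q hq => hQ (aQ hq)
  have fA : ∀ q ∈ A, ∀ q' ∈ A, f2 q = f2 q' ∧ fp q = fp q' := fun q hq q' hq' =>
    Prod.mk.inj ((Finset.mem_filter.1 (hA hq)).2.trans (Finset.mem_filter.1 (hA hq')).2.symm)
  obtain ⟨q', hq⟩ : A.Nonempty := Finset.card_pos.1 (by omega)
  have hm : ¬ IsSquare (∏ q ∈ A, q) := fun h => by
    simpa [fac_Base pA, hq] using even_Base h q'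
  obtain ⟨K, _, _, y, d, hc, hy, hz⟩ := hF _ hm
  have n0 : ∀ B ⊆ A, ∏ q ∈ B, q ≠ 0 := fun B hB =>
    Finset.prod_ne_zero_iff.2 fun q h => (pA q (hB h)).ne_zero
  obtain ⟨B⟩ : Nonempty ((Fin t → Bool) ↪ (A.erase q').powerset) :=
    Function.Embedding.nonempty_of_card_le (by
      rw [Fintype.card_coe, Finset.card_powerset, Finset.card_erase_of_mem hq, cA]
      simpa using Nat.pow_le_pow_right two_pos (by omega))
  have hB : ∀ e, (B e).1 ⊆ A.erase q' := fun e => Finset.mem_powerset.1 (B e).2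
  have hB' : ∀ e, (B e).1 ⊆ A := fun e => (hB e).trans (Finset.erase_subset _ _)
  refine ⟨K, inferInstance, inferInstance, d, hc.trans (Finset.single_le_sum
    (f := fun A : Finset ℕ => F (∏ q ∈ A, q)) (fun _ _ => Nat.zero_le _)
    (Finset.mem_powerset.2 aQ)), spl_Base hy hz ⟨√(∏ q ∈ A, q : ℕ),
      (Real.mul_self_sqrt (Nat.cast_nonneg _)).symm⟩,
    spl_Base hy hz (sq_Base cA pA fun q h r h' => h2 _ _ (Nat.cast_ne_zero.2 (pA q h).ne_zero)
      (Nat.cast_ne_zero.2 (pA r h').ne_zero) (fA q h r h').1),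
    spl_Base hy hz (sq_Base cA pA fun q h r h' => hp _ _ (Nat.cast_ne_zero.2 (pA q h).ne_zero)
      (Nat.cast_ne_zero.2 (pA r h').ne_zero) (fA q h r h').2),
    fun e => ((∏ q ∈ (B e).1, q : ℕ) : K), fun e => ⟨Nat.cast_ne_zero.2 (n0 _ (hB' e)), ?_⟩,
    fun e e' h => ?_⟩
  · refine ev_Base (y := y) (n' := ∏ q ∈ A \ (B e).1, q) (n0 _ (hB' e)) (n0 _ Finset.sdiff_subset)
      (Nat.Coprime.prod_left fun q h => Nat.Coprime.prod_right fun r h' =>
        (Nat.coprime_primes (pA q (hB' e h)) (pA r (Finset.sdiff_subset h'))).2 ?_) ?_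
    · rintro rfl
      exact (Finset.mem_sdiff.1 h').2 h
    · rw [mul_comm, Finset.prod_sdiff (hB' e), hy]
  · rw [← Nat.cast_mul] at h
    have f1 := fac_Base fun q h => pA q (hB' e h)
    have f2 := fac_Base fun q h => pA q (hB' e' h)
    rcases rat_Base hm hy hz h with h | h
    · refine B.injective (Subtype.ext (Finset.ext fun q => ?_))
      have := even_Base h q
      rw [Nat.factorization_mul (n0 _ (hB' e)) (n0 _ (hB' e')), Finsupp.add_apply, f1, f2] at this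
      by_cases h3 : q ∈ (B e).1 <;> by_cases h4 : q ∈ (B e').1 <;> simp_all
    · have := even_Base h q'
      rw [Nat.factorization_mul (mul_ne_zero (n0 _ (hB' e)) (n0 _ (hB' e'))) (n0 _ subset_rfl),
        Nat.factorization_mul (n0 _ (hB' e)) (n0 _ (hB' e')), Finsupp.add_apply,
        Finsupp.add_apply, f1, f2, fac_Base pA, if_pos hq,
        if_neg fun h => Finset.notMem_erase _ _ (hB e h),
        if_neg fun h => Finset.notMem_erase _ _ (hB e' h)] at this
      exact absurd this (by decide)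

end Pool.Agent.MP_9b2bac_nt.Tw
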