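import Pool.Agent.MP_9b2bac_nt.Tw.Stmt

set_option autoImplicit false

open NumberField IsDedekindDomain Module

namespace Pool.Agent.MP_9b2bac_nt.Tw

open Pool.Agent.MP_f3cd89_nt

/-- principal divisors -/
def prin_Cls (K : Type) [Field K] [NumberField K] : AddSubgroup (Pr K →₀ ℤ) where
  carrier := {D | ∃ a : K, a ≠ 0 ∧ D = dv a}
  zero_mem' := ⟨1, one_ne_zero, dv_one.symm⟩
  add_mem' := by
    rintro _ _ ⟨a, ha, rfl⟩ ⟨b, hb, rfl⟩
    exact ⟨a * b, mul_ne_zero ha hb, (dv_mul ha hb).symm⟩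
  neg_mem' := by
    rintro _ ⟨a, ha, rfl⟩
    exact ⟨a⁻¹, inv_ne_zero ha, (dv_inv a).symm⟩

theorem fin_Cls (K : Type) [Field K] [NumberField K] : Finite ((Pr K →₀ ℤ) ⧸ prin_Cls K) := by
  obtain ⟨cl, hcl⟩ := cls_fin (E := K)
  refine Finite.of_injective (fun x : (Pr K →₀ ℤ) ⧸ prin_Cls K => cl x.out) fun x y h => ?_
  obtain ⟨a, ha, h2⟩ := hcl _ _ h
  rw [← QuotientAddGroup.out_eq' x, ← QuotientAddGroup.out_eq' y, QuotientAddGroup.eq_iff_sub_mem]
  exact ⟨a, ha, by ext w; simpa using h2 w⟩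

theorem card_Cls (A : Type) [AddCommGroup A] [Finite A] (f : A →+ A) :
    Nat.card (A ⧸ f.range) = Nat.card f.ker := by
  have h1 := AddSubgroup.card_eq_card_quotient_mul_card_addSubgroup f.range
  have h2 := AddSubgroup.card_eq_card_quotient_mul_card_addSubgroup f.ker
  rw [Nat.card_congr (QuotientAddGroup.quotientKerEquivRange f).toEquiv, h1, mul_comm] at h2
  exact Nat.eq_of_mul_eq_mul_left Nat.card_pos h2

theorem cls : CLS_st := by
  intro K _ _ T _ Φ hΦ
  have := fin_Cls K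
  let f : ((Pr K →₀ ℤ) ⧸ prin_Cls K) →+ ((Pr K →₀ ℤ) ⧸ prin_Cls K) :=
    AddMonoidHom.id _ + AddMonoidHom.id _
  have hf : ∀ x, f x = x + x := fun x => rfl
  refine ⟨((Pr K →₀ ℤ) ⧸ prin_Cls K) ⧸ f.range, inferInstance,
    fun D => QuotientAddGroup.mk (QuotientAddGroup.mk D), ?_, fun D D' h => ?_⟩
  · rw [card_Cls]
    have key : ∀ x : f.ker, ∃ a : K, a ≠ 0 ∧ x.1.out + x.1.out = dv a := fun x => by
      have h := x.2
      rw [AddMonoidHom.mem_ker, hf, ← QuotientAddGroup.out_eq' x.1, ← QuotientAddGroup.mk_add,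
        QuotientAddGroup.eq_zero_iff] at h
      exact h
    choose a ha hd using key
    have hev : ∀ x, Ev (a x) := fun x w => by
      have := DFunLike.congr_fun (hd x) w
      rw [dv_apply, Finsupp.add_apply] at this
      exact ⟨_, this.symm⟩
    refine Nat.card_le_card_of_injective (fun x => Φ (a x)) fun x y h => ?_
    obtain ⟨z, hz⟩ := hΦ _ _ (ha x) (ha y) (hev x) (hev y) h
    have hz0 : z ≠ 0 := by
      rintro rfl
      exact mul_ne_zero (ha x) (ha y) (by rw [hz, mul_zero])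
    have h1 : x.1.out + y.1.out = dv z := by
      ext w
      have e1 := DFunLike.congr_fun (hd x) w
      have e2 := DFunLike.congr_fun (hd y) w
      have e3 := ord_mul w (ha x) (ha y)
      rw [hz, ord_mul w hz0 hz0] at e3
      simp only [dv_apply, Finsupp.add_apply] at e1 e2 ⊢
      omega
    have h2 : x.1 + y.1 = 0 := by
      rw [← QuotientAddGroup.out_eq' x.1, ← QuotientAddGroup.out_eq' y.1,
        ← QuotientAddGroup.mk_add, QuotientAddGroup.eq_zero_iff]
      exact ⟨z, hz0, h1⟩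
    have h3 : y.1 + y.1 = 0 := y.2
    exact Subtype.ext (add_right_cancel (h2.trans h3.symm))
  · obtain ⟨x, hx⟩ := QuotientAddGroup.eq_iff_sub_mem.1 h
    rw [hf, ← QuotientAddGroup.out_eq' x, ← QuotientAddGroup.mk_add, ← QuotientAddGroup.mk_sub,
      QuotientAddGroup.eq_iff_sub_mem] at hx
    obtain ⟨a, ha, h2⟩ := hx
    refine ⟨a, ha, fun v => ?_⟩
    have := DFunLike.congr_fun h2 v
    simp only [dv_apply, Finsupp.add_apply, Finsupp.sub_apply] at this
    exact ⟨x.out v + D' v, by omega⟩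

end Pool.Agent.MP_9b2bac_nt.Tw
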