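import Pool.Agent.MP_9b2bac_nt.Tw.Stmt

set_option autoImplicit false

open NumberField IsDedekindDomain Module

namespace Pool.Agent.MP_9b2bac_nt.Tw

open Pool.Agent.MP_f3cd89_nt

/-- the lift of an automorphism to the quadratic algebra -/
def lift_Ext {K L : Type} [Field K] [Field L] [Algebra K L] (x : L) (σ : L ≃ₐ[K] L) (u : L)
    (hu : σ x = x * u ^ 2) : QuadraticAlgebra L x 0 →ₐ[K] QuadraticAlgebra L x 0 where
  toFun z := ⟨σ z.re, u * σ z.im⟩
  map_one' := by ext <;> simp [QuadraticAlgebra.re_one, QuadraticAlgebra.im_one]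
  map_mul' z w := by
    ext
    · simp [hu]
      ring
    · simp
      ring
  map_zero' := by ext <;> simp
  map_add' z w := by
    ext
    · simp
    · simp
      ring
  commutes' r := by
    ext
    · exact σ.commutes r
    · change u * σ 0 = 0
      simp

theorem ext : EXT_st := by
  intro K L _ _ _ _ _ _ x hx hI
  have hF : Fact (∀ r : L, r ^ 2 ≠ x + 0 * r) := ⟨fun r hr => hx ⟨r, by rw [← sq, hr]; simp⟩⟩
  have hN : NumberField (QuadraticAlgebra L x 0) :=
    NumberField.of_module_finite L (QuadraticAlgebra L x 0)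
  have hy : (QuadraticAlgebra.omega : QuadraticAlgebra L x 0) ^ 2 =
      algebraMap L (QuadraticAlgebra L x 0) x := by
    rw [sq, QuadraticAlgebra.omega_mul_omega_eq_mk]
    rfl
  have hz : ∀ z : QuadraticAlgebra L x 0, z = algebraMap L _ z.re +
      algebraMap L _ z.im * QuadraticAlgebra.omega := by
    intro z
    ext <;> simp
  have hKL : FiniteDimensional K L := Module.Finite.of_restrictScalars_finite ℚ K L
  have hKM : FiniteDimensional K (QuadraticAlgebra L x 0) := Module.Finite.trans L _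
  refine ⟨QuadraticAlgebra L x 0, inferInstance, hN, inferInstance, inferInstance, inferInstance,
    QuadraticAlgebra.omega, ?_, QuadraticAlgebra.finrank_eq_two x 0, hy,
    fun z => ⟨z.re, z.im, hz z⟩, ?_⟩
  · refine IsGalois.of_fixedField_eq_bot K _ (eq_bot_iff.2 fun z hz' => ?_)
    have h1 : ∀ (σ : L ≃ₐ[K] L) (u : L), σ x = x * u ^ 2 → σ z.re = z.re ∧ u * σ z.im = z.im := by
      intro σ u hu
      have h2 := (IntermediateField.mem_fixedField_iff _ z).1 hz'
        (AlgEquiv.ofBijective (lift_Ext x σ u hu) (Algebra.IsAlgebraic.algHom_bijective _))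
        (Subgroup.mem_top _)
      exact ⟨congrArg QuadraticAlgebra.re h2, congrArg QuadraticAlgebra.im h2⟩
    have h2 : z.im = 0 := by
      have h3 := (h1 1 (-1) (by simp)).2
      simp only [AlgEquiv.one_apply, neg_mul, one_mul] at h3
      exact self_eq_neg.1 h3.symm
    obtain ⟨c, hc⟩ := (IsGalois.mem_range_algebraMap_iff_fixed (F := K) z.re).2 fun σ => by
      obtain ⟨u, hu⟩ := hI σ
      exact (h1 σ u hu).1
    refine IntermediateField.mem_bot.2 ⟨c, ?_⟩
    ext
    · exact hc
    · exact h2.symm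
  · intro k _ hS hq ψ
    obtain ⟨φ, hφ⟩ := hS (ψ.comp (algebraMap L _))
    obtain ⟨e, he⟩ := hq φ
    have h1 : ∃ e' : k, ψ QuadraticAlgebra.omega = algebraMap k _ e' := by
      have h2 : ψ QuadraticAlgebra.omega ^ 2 = algebraMap k _ e ^ 2 := by
        rw [← map_pow, hy, ← map_pow, sq, ← he]
        exact hφ x
      rcases sq_eq_sq_iff_eq_or_eq_neg.1 h2 with h | h
      · exact ⟨e, h⟩
      · exact ⟨-e, by rw [h, map_neg]⟩
    obtain ⟨e', he'⟩ := h1
    have h2 : ∀ z, ∃ t : k, ψ z = algebraMap k _ t := fun z =>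
      ⟨φ z.re + φ z.im * e', by
        conv_lhs => rw [hz z]
        rw [map_add, map_mul, map_add, map_mul, he', ← hφ, ← hφ]
        rfl⟩
    choose f hf using h2
    have hi := (algebraMap k (AlgebraicClosure k)).injective
    refine ⟨⟨⟨⟨f, hi ?_⟩, fun a b => hi ?_⟩, hi ?_, fun a b => hi ?_⟩, hf⟩
    · rw [← hf, map_one, map_one]
    · simp only [map_mul, ← hf]
    · simp only [map_zero, ← hf]
    · simp only [map_add, ← hf]

end Pool.Agent.MP_9b2bac_nt.Tw
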