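import Mathlib

/-!
Augmentation filtration of a representation of a finite `p`-group in characteristic `p`.
-/

namespace Pool.Agent.MP_9b2bac_nt.Tw.GS

open Module

section
variable {F G M M' : Type} [Field F] [Group G] [AddCommGroup M] [Module F M]
  [AddCommGroup M'] [Module F M']

/-- the span of all `g x - x` with `x` in `N` -/
def Dl (ρ : Representation F G M) (N : Submodule F M) : Submodule F M :=
  ⨆ g : G, N.map (ρ g - 1 : M →ₗ[F] M)

/-- invariant subspaces -/
def Inv (ρ : Representation F G M) (N : Submodule F M) : Prop := ∀ g, ∀ x ∈ N, ρ g x ∈ N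

variable {ρ : Representation F G M} {ρ' : Representation F G M'}

theorem mem_Dl {N : Submodule F M} (g : G) {x : M} (hx : x ∈ N) : ρ g x - x ∈ Dl ρ N :=
  Submodule.mem_iSup_of_mem g ⟨x, hx, rfl⟩

theorem Dl_le_iff {N P : Submodule F M} : Dl ρ N ≤ P ↔ ∀ g, ∀ x ∈ N, ρ g x - x ∈ P := by
  refine ⟨fun h g x hx => h (mem_Dl g hx), fun h => iSup_le fun g => ?_⟩
  rintro _ ⟨x, hx, rfl⟩
  exact h g x hx

theorem Dl_mono {N P : Submodule F M} (h : N ≤ P) : Dl ρ N ≤ Dl ρ P :=
  Dl_le_iff.2 fun g _ hx => mem_Dl g (h hx)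

theorem Dl_le {N : Submodule F M} (h : Inv ρ N) : Dl ρ N ≤ N :=
  Dl_le_iff.2 fun g x hx => N.sub_mem (h g x hx) hx

theorem Dl_inv {N : Submodule F M} (h : Inv ρ N) : Inv ρ (Dl ρ N) := fun g x hx => by
  have := mem_Dl (ρ := ρ) g (Dl_le h hx)
  simpa using (Dl ρ N).add_mem this hx

theorem Dl_map (f : M →ₗ[F] M') (hf : ∀ g x, f (ρ g x) = ρ' g (f x)) (N : Submodule F M) :
    (Dl ρ N).map f = Dl ρ' (N.map f) := by
  refine le_antisymm (Submodule.map_le_iff_le_comap.2 (Dl_le_iff.2 fun g x hx => ?_))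
    (Dl_le_iff.2 ?_)
  · rw [Submodule.mem_comap, map_sub, hf]
    exact mem_Dl g (Submodule.mem_map_of_mem hx)
  · rintro g _ ⟨x, hx, rfl⟩
    exact ⟨_, mem_Dl g hx, by rw [map_sub, hf]⟩

theorem Dl_sup (N P : Submodule F M) : Dl ρ (N ⊔ P) ≤ Dl ρ N ⊔ Dl ρ P := by
  refine Dl_le_iff.2 fun g x hx => ?_
  obtain ⟨y, hy, z, hz, rfl⟩ := Submodule.mem_sup.1 hx
  have : ρ g (y + z) - (y + z) = (ρ g y - y) + (ρ g z - z) := by rw [map_add]; abel
  rw [this]
  exact Submodule.add_mem_sup (mem_Dl g hy) (mem_Dl g hz)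

theorem it_mono (n : ℕ) {N P : Submodule F M} (h : N ≤ P) : (Dl ρ)^[n] N ≤ (Dl ρ)^[n] P := by
  induction n with
  | zero => exact h
  | succ n ih => rw [Function.iterate_succ_apply', Function.iterate_succ_apply']; exact Dl_mono ih

theorem it_inv (n : ℕ) {N : Submodule F M} (h : Inv ρ N) : Inv ρ ((Dl ρ)^[n] N) := by
  induction n with
  | zero => exact h
  | succ n ih => rw [Function.iterate_succ_apply']; exact Dl_inv ih

theorem it_le (n : ℕ) {N : Submodule F M} (h : Inv ρ N) : (Dl ρ)^[n] N ≤ N := by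
  induction n with
  | zero => exact le_rfl
  | succ n ih => rw [Function.iterate_succ_apply']; exact (Dl_le (it_inv n h)).trans ih

theorem it_map (f : M →ₗ[F] M') (hf : ∀ g x, f (ρ g x) = ρ' g (f x)) (n : ℕ)
    (N : Submodule F M) : ((Dl ρ)^[n] N).map f = (Dl ρ')^[n] (N.map f) := by
  induction n with
  | zero => rfl
  | succ n ih => rw [Function.iterate_succ_apply', Function.iterate_succ_apply', Dl_map f hf, ih]

theorem inv_top : Inv ρ ⊤ := fun _ _ _ => trivial

theorem rn [FiniteDimensional F M] (f : M →ₗ[F] M') (U : Submodule F M) :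
    finrank F (U.map f) + finrank F (U ⊓ LinearMap.ker f : Submodule F M) = finrank F U := by
  have h := (f.domRestrict U).finrank_range_add_finrank_ker
  rw [LinearMap.range_domRestrict, LinearMap.ker_domRestrict] at h
  rw [← h]
  congr 1
  rw [← Submodule.finrank_map_subtype_eq U, Submodule.map_comap_subtype]

end

section
variable {p : ℕ} [Fact p.Prime] {G M : Type} [Group G] [AddCommGroup M]
  [Module (ZMod p) M] [FiniteDimensional (ZMod p) M]

theorem fix_dual (hG : IsPGroup p G) (ρ : Representation (ZMod p) G M) [Nontrivial M] :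
    ∃ φ : M →ₗ[ZMod p] ZMod p, φ ≠ 0 ∧ ∀ g x, φ (ρ g x) = φ x := by
  let : MulAction G (Dual (ZMod p) M) := MulAction.compHom _ ρ.dual
  have : Finite (Dual (ZMod p) M) := Module.finite_of_finite (ZMod p)
  have hc : p ∣ Nat.card (Dual (ZMod p) M) := by
    rw [Module.natCard_eq_pow_finrank (K := ZMod p), Nat.card_zmod, Subspace.dual_finrank_eq]
    exact dvd_pow_self p finrank_pos.ne'
  obtain ⟨φ, h1, h2⟩ := hG.exists_fixed_point_of_prime_dvd_card_of_fixed_point _ hc
    (a := 0) fun g => map_zero (ρ.dual g)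
  refine ⟨φ, h2.symm, fun g x => ?_⟩
  have h3 : ρ.dual g⁻¹ φ = φ := h1 g⁻¹
  have h4 := LinearMap.congr_fun h3 x
  rw [Representation.dual_apply, inv_inv] at h4
  exact h4

variable {ρ : Representation (ZMod p) G M}

theorem Dl_lt (hG : IsPGroup p G) {N : Submodule (ZMod p) M} (h : Inv ρ N) (h0 : N ≠ ⊥) :
    Dl ρ N < N := by
  have : Nontrivial N := Submodule.nontrivial_iff_ne_bot.2 h0
  obtain ⟨φ, h1, h2⟩ := fix_dual hG (ρ.subrepresentation N fun g x hx => h g x hx)
  obtain ⟨ψ, hψ⟩ := LinearMap.exists_extend φ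
  refine lt_of_le_of_ne (Dl_le h) fun he => h1 ?_
  have h3 : Dl ρ N ≤ LinearMap.ker ψ := Dl_le_iff.2 fun g x hx => by
    have h4 := h2 g ⟨x, hx⟩
    rw [← hψ] at h4
    rw [LinearMap.mem_ker, map_sub, sub_eq_zero]
    exact h4
  ext x
  rw [← hψ]
  exact h3 (he.symm ▸ x.2)

theorem it_bot (hG : IsPGroup p G) {N : Submodule (ZMod p) M} (h : Inv ρ N) :
    ∃ n, (Dl ρ)^[n] N = ⊥ := by
  induction hn : finrank (ZMod p) N using Nat.strong_induction_on generalizing N with
  | _ n ih =>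
    by_cases h0 : N = ⊥
    · exact ⟨0, h0⟩
    · obtain ⟨m, hm⟩ := ih _ (hn ▸ Submodule.finrank_lt_finrank_of_lt (Dl_lt hG h h0)) (Dl_inv h) rfl
      exact ⟨m + 1, hm⟩

theorem nak (hG : IsPGroup p G) {N P : Submodule (ZMod p) M} (h : Inv ρ N) (hP : Inv ρ P)
    (hl : N ≤ P ⊔ Dl ρ N) : N ≤ P := by
  obtain ⟨n, hn⟩ := it_bot hG h
  have : ∀ m, N ≤ P ⊔ (Dl ρ)^[m] N := fun m => by
    induction m with
    | zero => exact le_sup_right
    | succ m ih =>
      rw [Function.iterate_succ_apply']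
      refine hl.trans (sup_le le_sup_left (((Dl_mono ih).trans (Dl_sup _ _)).trans ?_))
      exact sup_le_sup_right (Dl_le hP) _
  simpa [hn] using this n

end

end Pool.Agent.MP_9b2bac_nt.Tw.GS
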