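import Pool.Agent.MP_9b2bac_nt.Tw.GSa

/-!
Free representations, minimal covers and the dimension count of Golod and Shafarevich.
-/

namespace Pool.Agent.MP_9b2bac_nt.Tw.GS

open Module Finset

section
variable (F G : Type) [Field F] [Group G]

/-- the regular representation on functions -/
def reg : Representation F G (G → F) where
  toFun g := LinearMap.funLeft F F fun x => g⁻¹ * x
  map_one' := by ext f x; simp
  map_mul' g h := by ext f x; simp [LinearMap.funLeft_apply, mul_assoc]

/-- a sum of copies of the regular representation -/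
def fre (k : ℕ) : Representation F G (Fin k → G → F) where
  toFun g := (reg F G g).compLeft (Fin k)
  map_one' := by ext f x; simp
  map_mul' g h := by ext f x; simp

variable {F G}

theorem reg_apply (g : G) (f : G → F) (x : G) : reg F G g f x = f (g⁻¹ * x) := rfl

theorem fre_apply {k : ℕ} (g : G) (f : Fin k → G → F) (i : Fin k) :
    fre F G k g f i = reg F G g (f i) := rfl

theorem reg_single [DecidableEq G] (g h : G) :
    reg F G g (Pi.single h 1) = Pi.single (g * h) 1 := by
  ext x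
  simp only [reg_apply, Pi.single_apply, inv_mul_eq_iff_eq_mul]

variable [Fintype G] {M : Type} [AddCommGroup M] [Module F M]

/-- the equivariant map from a free representation given by a family of vectors -/
def psi (ρ : Representation F G M) {k : ℕ} (x : Fin k → M) : (Fin k → G → F) →ₗ[F] M where
  toFun f := ∑ i, ∑ h, f i h • ρ h (x i)
  map_add' f f' := by simp [add_smul, sum_add_distrib]
  map_smul' a f := by simp [smul_sum, mul_smul]

theorem psi_apply (ρ : Representation F G M) {k : ℕ} (x : Fin k → M) (f : Fin k → G → F) :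
    psi ρ x f = ∑ i, ∑ h, f i h • ρ h (x i) := rfl

theorem psi_eq (ρ : Representation F G M) {k : ℕ} (x : Fin k → M) (g : G) (f : Fin k → G → F) :
    psi ρ x (fre F G k g f) = ρ g (psi ρ x f) := by
  simp only [psi_apply, map_sum, map_smul, fre_apply, reg_apply]
  refine sum_congr rfl fun i _ => ?_
  rw [← Equiv.sum_comp (Equiv.mulLeft g)]
  simp

theorem psi_single [DecidableEq G] (ρ : Representation F G M) {k : ℕ} (x : Fin k → M) (i : Fin k) :
    psi ρ x (Pi.single i (Pi.single 1 1)) = x i := by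
  rw [psi_apply, sum_eq_single i (fun j _ hj => by simp [Pi.single_eq_of_ne hj]) (by simp),
    sum_eq_single 1 (fun j _ hj => by simp [Pi.single_eq_of_ne hj]) (by simp)]
  simp

theorem reg_mem {f : G → F} (hf : ∑ h, f h = 0) : f ∈ Dl (reg F G) ⊤ := by
  classical
  have : f = ∑ h, f h • (reg F G h (Pi.single 1 1) - Pi.single 1 1) := by
    simp only [reg_single, mul_one, smul_sub, sum_sub_distrib, ← sum_smul, hf, zero_smul, sub_zero]
    exact pi_eq_sum_univ' f
  rw [this]
  exact Submodule.sum_mem _ fun h _ => Submodule.smul_mem _ _ (mem_Dl h trivial)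

theorem reg_sum {f : G → F} (hf : f ∈ Dl (reg F G) ⊤) : ∑ h, f h = 0 := by
  let ε : (G → F) →ₗ[F] F := ∑ h, LinearMap.proj h
  have he : ∀ f, ε f = ∑ h, f h := fun f => by simp [ε]
  have : Dl (reg F G) ⊤ ≤ LinearMap.ker ε := Dl_le_iff.2 fun g x _ => by
    rw [LinearMap.mem_ker, map_sub, he, he, ← Equiv.sum_comp (Equiv.mulLeft g)]
    simp [reg_apply]
  rw [← he]
  exact this hf

omit [Fintype G] in
theorem fre_mem_iff {k n : ℕ} {f : Fin k → G → F} :
    f ∈ (Dl (fre F G k))^[n] ⊤ ↔ ∀ i, f i ∈ (Dl (reg F G))^[n] ⊤ := by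
  refine ⟨fun hf i => ?_, fun hf => ?_⟩
  · have h := it_map (ρ := fre F G k) (ρ' := reg F G) (LinearMap.proj i) (fun _ _ => rfl) n ⊤
    exact it_mono n le_top (h ▸ Submodule.mem_map_of_mem hf)
  · rw [← univ_sum_single f]
    refine Submodule.sum_mem _ fun i _ => ?_
    have h := it_map (ρ := reg F G) (ρ' := fre F G k) (LinearMap.single F (fun _ => G → F) i)
      (fun g x => by
        ext j y
        by_cases hj : j = i
        · subst hj; simp [fre_apply]
        · simp [fre_apply, Pi.single_eq_of_ne hj]) n ⊤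
    exact it_mono n le_top (h ▸ Submodule.mem_map_of_mem (hf i))

theorem fre_rank (k n : ℕ) :
    finrank F ((Dl (fre F G k))^[n] ⊤ : Submodule F _) =
      k * finrank F ((Dl (reg F G))^[n] ⊤ : Submodule F _) := by
  let e : ((Dl (fre F G k))^[n] ⊤ : Submodule F _) ≃ₗ[F]
      (Fin k → ((Dl (reg F G))^[n] ⊤ : Submodule F _)) :=
    { toFun f i := ⟨f.1 i, fre_mem_iff.1 f.2 i⟩
      map_add' _ _ := rfl
      map_smul' _ _ := rfl
      invFun f := ⟨fun i => f i, fre_mem_iff.2 fun i => (f i).2⟩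
      left_inv _ := rfl
      right_inv _ := rfl }
  rw [e.finrank_eq, finrank_pi_fintype]
  simp

/-- the basic inequality -/
theorem count {d r : ℕ} (x : Fin d → G → F) (y : Fin r → Fin d → G → F)
    (hx : LinearMap.range (psi (reg F G) x) = Dl (reg F G) ⊤)
    (hy : LinearMap.range (psi (fre F G d) y) = LinearMap.ker (psi (reg F G) x))
    (hk : LinearMap.ker (psi (reg F G) x) ≤ Dl (fre F G d) ⊤) (e : ℕ → ℕ)
    (he : ∀ n, e n = finrank F ((Dl (reg F G))^[n] ⊤ : Submodule F _)) (n : ℕ) :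
    e (n + 2) + d * e 0 + r * e n ≤ d * e (n + 1) + r * e 0 + e 1 := by
  have h1 := rn (psi (reg F G) x) ((Dl (fre F G d))^[n + 1] ⊤)
  rw [it_map _ (psi_eq _ x), Submodule.map_top, hx, ← Function.iterate_succ_apply, fre_rank,
    ← he, ← he] at h1
  have h2 := rn (psi (reg F G) x) ((Dl (fre F G d))^[0] ⊤)
  rw [fre_rank, ← he, Function.iterate_zero_apply, Submodule.map_top, hx, top_inf_eq] at h2
  have h3 := rn (psi (fre F G d) y) ((Dl (fre F G r))^[n] ⊤)
  rw [fre_rank, ← he, it_map _ (psi_eq _ y), Submodule.map_top, hy] at h3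
  have h4 := rn (psi (fre F G d) y) ((Dl (fre F G r))^[0] ⊤)
  rw [fre_rank, ← he, Function.iterate_zero_apply, Submodule.map_top, hy, top_inf_eq] at h4
  have h5 := Submodule.finrank_mono
    (inf_le_right : (Dl (fre F G r))^[n] ⊤ ⊓ LinearMap.ker (psi (fre F G d) y) ≤ _)
  have hi : Inv (fre F G d) (LinearMap.ker (psi (reg F G) x)) := fun g f hf => by
    rw [LinearMap.mem_ker, psi_eq, LinearMap.mem_ker.1 hf, map_zero]
  have h6 := Submodule.finrank_mono (le_inf (it_mono (ρ := fre F G d) n hk) (it_le n hi))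
  rw [← Function.iterate_succ_apply] at h6
  rw [← show e 1 = finrank F (Dl (reg F G) ⊤) from he 1] at h2
  simp only [Nat.succ_eq_add_one] at h1 h6
  exact (fun a b c d' e' : ℕ => by omega : ∀ a b c d' e' : ℕ, e (n + 2) + a = d * e (n + 1) →
    e 1 + b = d * e 0 → c + d' = r * e n → b + e' = r * e 0 → d' ≤ e' → c ≤ a → _)
    _ _ _ _ _ h1 h2 h3 h4 h5 h6

end

section
variable {p : ℕ} [Fact p.Prime] {G M : Type} [Group G] [Fintype G] [AddCommGroup M]
  [Module (ZMod p) M] [FiniteDimensional (ZMod p) M] {ρ : Representation (ZMod p) G M}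

/-- a minimal system of generators -/
theorem cover (hG : IsPGroup p G) {N : Submodule (ZMod p) M} (h : Inv ρ N) :
    ∃ (k : ℕ) (x : Fin k → M), LinearMap.range (psi ρ x) = N ∧
      LinearMap.ker (psi ρ x) ≤ Dl (fre (ZMod p) G k) ⊤ ∧
      ∃ L : M →ₗ[ZMod p] (Fin k → ZMod p), Dl ρ N ≤ LinearMap.ker L ∧
        ∀ i, L (x i) = Pi.single i 1 := by
  classical
  let b := finBasis (ZMod p) (N.map (Dl ρ N).mkQ)
  choose x hx hb using fun i => (b i).2
  let T : (Fin _ → ZMod p) →ₗ[ZMod p] M ⧸ Dl ρ N := (Submodule.subtype _) ∘ₗ b.equivFun.symm.toLinearMap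
  have hT : ∀ i, T (Pi.single i 1) = (Dl ρ N).mkQ (x i) := fun i => by
    simp [T, hb, Pi.single_apply]
  obtain ⟨L, hL⟩ := T.exists_leftInverse_of_injective (LinearMap.ker_eq_bot.2
    (Subtype.val_injective.comp b.equivFun.symm.injective))
  have hL1 : ∀ i, L ((Dl ρ N).mkQ (x i)) = Pi.single i 1 := fun i => by
    rw [← hT]; exact LinearMap.congr_fun hL _
  have hq : ∀ g i, (Dl ρ N).mkQ (ρ g (x i)) = (Dl ρ N).mkQ (x i) := fun g i =>
    (Submodule.Quotient.eq _).2 (mem_Dl g (hx i))
  refine ⟨_, x, le_antisymm ?_ (nak hG h ?_ fun z hz => ?_), fun f hf => ?_,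
    L ∘ₗ (Dl ρ N).mkQ, fun z hz => ?_, hL1⟩
  · rintro _ ⟨f, rfl⟩
    rw [psi_apply]
    exact N.sum_mem fun i _ => N.sum_mem fun g _ => N.smul_mem _ (h g _ (hx i))
  · rintro g _ ⟨f, rfl⟩
    exact ⟨_, psi_eq ρ x g f⟩
  · obtain ⟨a, ha⟩ := b.equivFun.symm.surjective ⟨_, Submodule.mem_map_of_mem hz⟩
    have h1 : (Dl ρ N).mkQ (∑ i, a i • x i) = (Dl ρ N).mkQ z := by
      have := congrArg Subtype.val ha
      simpa [hb] using this
    have h2 : z - ∑ i, a i • x i ∈ Dl ρ N := (Submodule.Quotient.eq _).1 h1.symm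
    have h3 : ∑ i, a i • x i ∈ LinearMap.range (psi ρ x) :=
      Submodule.sum_mem _ fun i _ => Submodule.smul_mem _ _ ⟨_, psi_single ρ x i⟩
    simpa using Submodule.add_mem_sup h3 h2
  · refine (fre_mem_iff (n := 1)).2 fun i => reg_mem ?_
    have h1 := congrArg (fun z => L ((Dl ρ N).mkQ z) i) (LinearMap.mem_ker.1 hf)
    simp only [psi_apply, map_sum, map_smul, hq, hL1, map_zero, Pi.zero_apply, Finset.sum_apply,
      Pi.smul_apply, smul_eq_mul, Pi.single_apply, ← sum_mul] at h1
    simpa using h1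
  · simp [(Submodule.Quotient.mk_eq_zero _).2 hz]

end

end Pool.Agent.MP_9b2bac_nt.Tw.GS
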