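import Pool.Agent.MP_9b2bac_nt.Tw.GSb

/-!
The inequality of Golod and Shafarevich for finite `p`-groups.
-/

namespace Pool.Agent.MP_9b2bac_nt.Tw.GS

open Module Finset

theorem arith {d r : ℕ} (e : ℕ → ℕ) (h2 : 2 ≤ d) (hr : 4 * r ≤ d ^ 2) (h1 : e 1 < e 0)
    (hle : ∀ n, e n ≤ e 0)
    (h : ∀ n, e (n + 2) + d * e 0 + r * e n ≤ d * e (n + 1) + r * e 0 + e 1) : False := by
  obtain ⟨c, hc⟩ : ∃ c : ℕ → ℕ, ∀ n, e 0 = c n + e n :=
    ⟨fun n => e 0 - e n, fun n => (Nat.sub_add_cancel (hle n)).symm⟩
  have k : ∀ n, d * c n + 2 ≤ 2 * c (n + 1) := fun n => by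
    induction n with
    | zero =>
      have h3 := hc 0
      have h4 := hc 1
      have h5 : c 0 = 0 := by omega
      rw [h5, mul_zero, zero_add, zero_add]; omega
    | succ n ih =>
      have h3 := h n
      have h4 : d * e 0 = d * c (n + 1) + d * e (n + 1) := by rw [← mul_add, ← hc]
      have h5 : r * e 0 = r * c n + r * e n := by rw [← mul_add, ← hc]
      have h6 := hc (n + 2)
      have h7 : 4 * (r * c n) ≤ 2 * (d * c (n + 1)) := by
        calc 4 * (r * c n) = 4 * r * c n := by ring
          _ ≤ d ^ 2 * c n := Nat.mul_le_mul_right _ hr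
          _ = d * (d * c n) := by ring
          _ ≤ d * (2 * c (n + 1)) := Nat.mul_le_mul_left _ (by omega)
          _ = _ := by ring
      have h8 : c (n + 1 + 1) = c (n + 2) := rfl
      omega
  have k2 : ∀ n, n ≤ c n := fun n => by
    induction n with
    | zero => omega
    | succ n ih =>
      have h3 := k n
      have h4 : 2 * c n ≤ d * c n := Nat.mul_le_mul_right _ h2
      omega
  have h3 := k2 (e 0 + 1)
  have h4 := hc (e 0 + 1)
  omega

section
variable {F G : Type} [Field F] [Group G] [Fintype G]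

/-- an invariant functional on the relation module whose cocycle is a coboundary vanishes -/
theorem vanish [DecidableEq G] {M : Type} [AddCommGroup M] [Module F M]
    {ρ : Representation F G M} (π : M →ₗ[F] G → F) (hπ : ∀ g x, π (ρ g x) = reg F G g (π x))
    (h0 : ∀ x, ∑ h, π x h = 0) (hk : LinearMap.ker π ≤ Dl ρ ⊤) (s : G → M)
    (hs : ∀ g, π (s g) = Pi.single g 1 - Pi.single 1 1) (φ : M →ₗ[F] F)
    (hφ : ∀ g x, π x = 0 → φ (ρ g x) = φ x) (b : G → F)
    (hb : ∀ g h, φ (ρ g (s h) - s (g * h) + s g) = b g + b h - b (g * h)) {x : M} (hx : π x = 0) :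
    φ x = 0 := by
  let σ : (G → F) →ₗ[F] M := Fintype.linearCombination F s
  let β : (G → F) →ₗ[F] F := Fintype.linearCombination F b
  have hσ : ∀ x, π (σ (π x)) = π x := fun x => by
    simp only [σ, Fintype.linearCombination_apply, map_sum, map_smul, hs, smul_sub,
      sum_sub_distrib, ← sum_smul, h0, zero_smul, sub_zero]
    exact (pi_eq_sum_univ' (π x)).symm
  let θ : M →ₗ[F] F := φ - φ ∘ₗ σ ∘ₗ π + β ∘ₗ π
  have hθ : ∀ x, θ x = φ x - φ (σ (π x)) + β (π x) := fun _ => rfl
  have h1 : Dl ρ ⊤ ≤ LinearMap.ker θ := Dl_le_iff.2 fun g x _ => by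
    have h2 := hφ g (x - σ (π x)) (by rw [map_sub, hσ, sub_self])
    have h3 : σ (reg F G g (π x)) = ∑ h, π x h • s (g * h) := by
      simp only [σ, Fintype.linearCombination_apply, reg_apply]
      rw [← Equiv.sum_comp (Equiv.mulLeft g)]
      simp
    have h4 : β (reg F G g (π x)) = ∑ h, π x h • b (g * h) := by
      simp only [β, Fintype.linearCombination_apply, reg_apply]
      rw [← Equiv.sum_comp (Equiv.mulLeft g)]
      simp
    have h5 : ∑ h, π x h • φ (ρ g (s h) - s (g * h) + s g) =
        ∑ h, π x h • (b g + b h - b (g * h)) := by simp only [hb]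
    simp only [map_add, map_sub, smul_add, smul_sub, sum_add_distrib, sum_sub_distrib, ← sum_smul,
      h0, zero_smul] at h5
    have h6 : φ (ρ g (σ (π x))) = ∑ h, π x h • φ (ρ g (s h)) := by
      simp only [σ, Fintype.linearCombination_apply, map_sum, map_smul]
    have h7 : β (π x) = ∑ h, π x h • b h := by simp only [β, Fintype.linearCombination_apply]
    rw [LinearMap.mem_ker, map_sub, hθ, hθ, hπ, h3, h4, h7, map_sum]
    rw [map_sub, map_sub, map_sub, h6] at h2
    simp only [map_smul]
    linear_combination h2 + h5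
  have h2 := LinearMap.mem_ker.1 (h1 (hk hx))
  simpa [hθ, hx] using h2

end

/-- the inequality of Golod and Shafarevich, counting form -/
theorem gs_count (p : ℕ) [Fact p.Prime] (G : Type) [Group G] [Finite G] (hG : IsPGroup p G)
    (d r : ℕ) (h2 : 2 ≤ d) (hd : p ^ d ≤ Nat.card (G →* Multiplicative (ZMod p)))
    (X : Type) [Finite X] (hX : Nat.card X ≤ p ^ r) (Θ : (G → G → ZMod p) → X)
    (hΘ : ∀ c c' : G → G → ZMod p, (∀ g h k, c g h + c (g * h) k = c h k + c g (h * k)) →
      (∀ g h k, c' g h + c' (g * h) k = c' h k + c' g (h * k)) → Θ c = Θ c' →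
      ∃ b : G → ZMod p, ∀ g h, c g h - c' g h = b g + b h - b (g * h)) : d ^ 2 < 4 * r := by
  classical
  have := Fintype.ofFinite G
  have hp : 1 < p := (Fact.out : p.Prime).one_lt
  obtain ⟨d', x, hx, hk, -⟩ := cover (ρ := reg (ZMod p) G) hG (Dl_inv inv_top)
  have hi : Inv (fre (ZMod p) G d') (LinearMap.ker (psi (reg (ZMod p) G) x)) := fun g f hf => by
    rw [LinearMap.mem_ker, psi_eq, LinearMap.mem_ker.1 hf, map_zero]
  obtain ⟨r', y, hy, -, L, hL, hL1⟩ := cover hG hi
  have h0 : ∀ f, ∑ h, psi (reg (ZMod p) G) x f h = 0 := fun f => reg_sum (hx ▸ ⟨f, rfl⟩)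
  have hs : ∀ g : G, ∃ s, psi (reg (ZMod p) G) x s = Pi.single g 1 - Pi.single 1 1 := fun g => by
    have h := mem_Dl (ρ := reg (ZMod p) G) g (Submodule.mem_top (x := Pi.single 1 1))
    rw [reg_single, mul_one, ← hx] at h
    exact h
  choose s hs using hs
  have hdd : d ≤ d' := by
    let T : (G →* Multiplicative (ZMod p)) → (G → ZMod p) →ₗ[ZMod p] ZMod p := fun χ =>
      Fintype.linearCombination (ZMod p) fun g => (χ g).toAdd
    have hT : ∀ χ g i, T χ (reg (ZMod p) G g (x i)) = T χ (x i) := fun χ g i => by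
      have h3 : ∑ h, x i h = 0 := by simpa only [psi_single] using h0 (Pi.single i (Pi.single 1 1))
      simp only [T, Fintype.linearCombination_apply, reg_apply]
      rw [← Equiv.sum_comp (Equiv.mulLeft g)]
      simp [mul_add, sum_add_distrib, ← sum_mul, h3]
    have hT1 : ∀ χ g, T χ (psi (reg (ZMod p) G) x (s g)) = (χ g).toAdd := fun χ g => by
      simp [hs, T]
    have h3 := Nat.card_le_card_of_injective (fun χ i => T χ (x i)) fun χ χ' h => by
      ext g
      have h4 : ∀ i, T χ (x i) = T χ' (x i) := congrFun h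
      rw [← hT1, ← hT1]
      simp only [psi_apply, map_sum, map_smul, hT, h4]
    rw [Nat.card_fun, Nat.card_zmod, Nat.card_fin] at h3
    exact (Nat.pow_le_pow_iff_right hp).1 (hd.trans h3)
  have hrr : r' ≤ r := by
    let φ : (Fin r' → ZMod p) → (Fin d' → G → ZMod p) →ₗ[ZMod p] ZMod p := fun a =>
      Fintype.linearCombination (ZMod p) a ∘ₗ L
    have hφ : ∀ a g z, psi (reg (ZMod p) G) x z = 0 → φ a (fre (ZMod p) G d' g z) = φ a z :=
      fun a g z hz => by
        have h3 := LinearMap.mem_ker.1 (hL (mem_Dl g hz))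
        rw [map_sub, sub_eq_zero] at h3
        simp only [φ, LinearMap.comp_apply, h3]
    have hw : ∀ g h, psi (reg (ZMod p) G) x (fre (ZMod p) G d' g (s h) - s (g * h) + s g) = 0 :=
      fun g h => by simp only [map_add, map_sub, psi_eq, hs, reg_single, mul_one]; abel
    let c : (Fin r' → ZMod p) → G → G → ZMod p := fun a g h =>
      φ a (fre (ZMod p) G d' g (s h) - s (g * h) + s g)
    have hc : ∀ a g h k, c a g h + c a (g * h) k = c a h k + c a g (h * k) := fun a g h k => by
      have h3 := hφ a g _ (hw h k)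
      simp only [c]
      rw [← h3]
      simp only [map_add, map_sub, map_mul, Module.End.mul_apply, mul_assoc]
      ring
    have h3 := Nat.card_le_card_of_injective (fun a => Θ (c a)) fun a a' h => by
      obtain ⟨b, hb⟩ := hΘ _ _ (hc a) (hc a') h
      ext i
      have h4 := vanish (psi (reg (ZMod p) G) x) (psi_eq _ x) h0 hk s hs (φ a - φ a')
        (fun g z hz => by simp only [LinearMap.sub_apply, hφ _ g z hz]) b hb
        (x := y i) (by rw [← psi_single (fre (ZMod p) G d') y i, ← LinearMap.mem_ker, ← hy]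
                       exact ⟨_, rfl⟩)
      simpa [φ, hL1, sub_eq_zero] using h4
    rw [Nat.card_fun, Nat.card_zmod, Nat.card_fin] at h3
    exact (Nat.pow_le_pow_iff_right hp).1 (h3.trans hX)
  by_contra hc
  refine arith (d := d') (r := r') (fun n => finrank (ZMod p)
    ((Dl (reg (ZMod p) G))^[n] ⊤ : Submodule (ZMod p) _)) (h2.trans hdd) ?_ ?_
    (fun n => Submodule.finrank_mono le_top) (count x y hx hy hk _ fun _ => rfl)
  · have := Nat.pow_le_pow_left hdd 2
    omega
  · refine Submodule.finrank_lt_finrank_of_lt (Dl_lt hG inv_top ?_)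
    exact top_ne_bot

/-- the number of homomorphisms to the cyclic group of order `p` is a power of `p` -/
theorem card_hom (p : ℕ) [Fact p.Prime] (G : Type) [Group G] [Finite G] :
    ∃ d, Nat.card (G →* Multiplicative (ZMod p)) = p ^ d := by
  have : Finite (G →* Multiplicative (ZMod p)) := Finite.of_injective _ DFunLike.coe_injective
  refine IsPGroup.iff_card.1 fun χ => ⟨1, ?_⟩
  ext g
  simp

end Pool.Agent.MP_9b2bac_nt.Tw.GS
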