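import Pool.Agent.MP_9b2bac_nt.Tw.Stmt
import Pool.Agent.MP_9b2bac_nt.Tw.GSc

namespace Pool.Agent.MP_9b2bac_nt.Tw

theorem gs_st : GS_st := fun G _ _ hG =>
  ⟨GS.card_hom 2 G, fun d r T _ Θ hd h2 hT hΘ => GS.gs_count 2 G hG d r h2 hd.ge T hT Θ
    fun c c' hc hc' => hΘ c c' (fun g h j => (add_comm _ _).trans (hc g h j))
      fun g h j => (add_comm _ _).trans (hc' g h j)⟩

theorem gs : GS_st := gs_st

end Pool.Agent.MP_9b2bac_nt.Tw
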