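import Pool.Agent.MP_9b2bac_nt.Tw.Stmt

/-! The norm theorem for a pair of subgroups. -/

set_option autoImplicit false

open NumberField IsDedekindDomain Module

namespace Pool.Agent.MP_9b2bac_nt.Tw

open Pool.Agent.MP_f3cd89_nt

lemma e_Hns {A B : Type} [Field A] [NumberField A] [Field B] [NumberField B] [Algebra A B]
    (w : Pr B) (x : A) (h : ord w (algebraMap A B x) = 1) :
    w.asIdeal.ramificationIdx (𝓞 A) = 1 ∧ ord (w.under (𝓞 A)) x = 1 := by
  rw [ord_over (over_under w)] at h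
  have h1 : (w.asIdeal.ramificationIdx (𝓞 A) : ℤ) = 1 :=
    Int.eq_one_of_mul_eq_one_right (Int.natCast_nonneg _) h
  refine ⟨by exact_mod_cast h1, ?_⟩
  rwa [h1, one_mul] at h

lemma quad_Hns (hN : HNT_st) (K M : Type) [Field K] [NumberField K] [Field M] [NumberField M]
    [Algebra K M] [IsTotallyReal M] (s : M ≃ₐ[K] M) (h1 : s ≠ 1) (h2 : s * s = 1)
    (hu : ∀ u : Pr M, ∃ π : K, ord u (algebraMap K M π) = 1) (a : M) (D : Pr M →₀ ℤ) (ha : a ≠ 0)
    (hs : s a = a) (hD : ∀ w, ord w a = D w + D (gact s w)) : ∃ μ : M, μ * s μ = a := by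
  let F := IntermediateField.fixedField (Subgroup.zpowers s)
  have : IsGalois F M := IsGalois.of_fixed_field M (Subgroup.zpowers s)
  have hr : finrank F M = 2 := by
    rw [IntermediateField.finrank_fixedField_eq_card, Nat.card_zpowers]
    exact orderOf_eq_prime (by rw [sq, h2]) h1
  let s' : M ≃ₐ[F] M := AlgEquiv.ofRingEquiv (f := s.toRingEquiv) fun x =>
    (IntermediateField.mem_fixedField_iff _ _).1 x.2 s (Subgroup.mem_zpowers s)
  have h3 : s' ≠ 1 := fun h => h1 (AlgEquiv.ext fun x => DFunLike.congr_fun h x)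
  have h4 : Ur F M := fun u => by
    obtain ⟨π, hπ⟩ := hu u
    rw [IsScalarTower.algebraMap_apply K F M] at hπ
    exact (e_Hns u _ hπ).1
  exact hN F M s' hr h3 h4 a D ha hs hD

theorem hns (hF : FB_st) (hN : HNT_st) : HNS_st := by
  intro K L _ _ _ _ _ _ _ hU H s hsH hss hconj a D ha hHa hsa hHD hD
  classical
  let M := IntermediateField.fixedField H
  have mem : ∀ x : L, x ∈ M ↔ ∀ h ∈ H, h x = x := fun x =>
    IntermediateField.mem_fixedField_iff H x
  have : IsGaloisGroup H M L := IsGaloisGroup.subgroup (L ≃ₐ[K] L) K L H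
  have : IsTotallyReal M := IsTotallyReal.of_algebra M L
  have hM : ∀ x ∈ M, s x ∈ M := fun x hx => (mem _).2 fun h hh => by
    have h1 : (s * s)⁻¹ * (s * h * s⁻¹) * (s * s) ∈ H :=
      H.mul_mem (H.mul_mem (H.inv_mem hss) (hconj h hh)) hss
    have h2 := (mem x).1 hx _ h1
    rw [show (s * s)⁻¹ * (s * h * s⁻¹) * (s * s) = s⁻¹ * (h * s) by group] at h2
    have h3 := congrArg s h2
    rwa [← AlgEquiv.mul_apply, mul_inv_cancel_left, AlgEquiv.mul_apply] at h3
  have hM2 : ∀ x ∈ M, s (s x) = x := fun x hx => (mem x).1 hx _ hss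
  let f : M →ₐ[K] M := ((s : L →ₐ[K] L).comp M.val).codRestrict M.toSubalgebra fun x => hM x x.2
  have hf : f.comp f = AlgHom.id K M := AlgHom.ext fun x => Subtype.ext (hM2 x x.2)
  let s' : M ≃ₐ[K] M := AlgEquiv.ofAlgHom f f hf hf
  have e1 : ∀ x : M, ((s' x : M) : L) = s x := fun x => rfl
  have h1 : s' ≠ 1 := fun h => hsH (by
    rw [← IntermediateField.fixingSubgroup_fixedField H, IntermediateField.mem_fixingSubgroup_iff]
    intro x hx
    exact (e1 ⟨x, hx⟩).symm.trans (by rw [h]; rfl))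
  have h2 : s' * s' = 1 := AlgEquiv.ext fun x => Subtype.ext (hM2 x x.2)
  have unif : ∀ w : Pr L, w.asIdeal.ramificationIdx (𝓞 M) = 1 ∧
      ∃ π : K, ord (w.under (𝓞 M)) (algebraMap K M π) = 1 := fun w => by
    obtain ⟨π, -, hπ⟩ := exists_ord_eq_one (w.under (𝓞 K))
    have h3 : ord w (algebraMap K L π) = 1 := by
      rw [ord_over (over_under w), hU w, hπ]
      rfl
    rw [IsScalarTower.algebraMap_apply K M L] at h3
    exact ⟨(e_Hns w _ h3).1, π, (e_Hns w _ h3).2⟩
  choose c hc using fun u : Pr M => under_surj (E' := L) u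
  let D0 : Pr M →₀ ℤ := Finsupp.onFinset (D.support.image fun w => w.under (𝓞 M))
    (fun u => D (c u)) fun u hu => Finset.mem_image.2 ⟨c u, Finsupp.mem_support_iff.2 hu, hc u⟩
  have hD0 : ∀ w : Pr L, D0 (w.under (𝓞 M)) = D w := fun w => by
    obtain ⟨g, hg⟩ := (hF M L H).2.1 w (c (w.under (𝓞 M))) (hc _).symm
    change D (c _) = D w
    rw [← hg]
    exact hHD g.1 g.2 w
  have hg : ∀ w : Pr L, (gact s w).under (𝓞 M) = gact s' (w.under (𝓞 M)) := fun w => by
    refine HeightOneSpectrum.ext (Ideal.ext fun x => ?_)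
    change (RingOfIntegers.mapRingEquiv (MulSemiringAction.toRingEquiv _ L s)).symm
      (algebraMap (𝓞 M) (𝓞 L) x) ∈ w.asIdeal ↔ algebraMap (𝓞 M) (𝓞 L)
      ((RingOfIntegers.mapRingEquiv (MulSemiringAction.toRingEquiv _ M s')).symm x) ∈ w.asIdeal
    have e : (RingOfIntegers.mapRingEquiv (MulSemiringAction.toRingEquiv _ L s)).symm
        (algebraMap (𝓞 M) (𝓞 L) x) = algebraMap (𝓞 M) (𝓞 L)
        ((RingOfIntegers.mapRingEquiv (MulSemiringAction.toRingEquiv _ M s')).symm x) := by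
      apply RingOfIntegers.ext
      change s.symm ((x : M) : L) = s ((x : M) : L)
      rw [AlgEquiv.symm_apply_eq, hM2 _ (x : M).2]
    rw [e]
  obtain ⟨μ, hμ⟩ := quad_Hns hN K M s' h1 h2 (fun u => hc u ▸ (unif (c u)).2)
    ⟨a, (mem a).2 hHa⟩ D0 (fun h => ha (congrArg Subtype.val h)) (Subtype.ext hsa) fun u => by
      obtain ⟨w, rfl⟩ := under_surj (E' := L) u
      have h3 := ord_over (over_under (E := M) w) (⟨a, (mem a).2 hHa⟩ : M)
      rw [(unif w).1, Nat.cast_one, one_mul] at h3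
      rw [← h3, ← hg, hD0, hD0]
      exact hD w
  exact ⟨μ, (mem _).1 μ.2, congrArg Subtype.val hμ⟩

end Pool.Agent.MP_9b2bac_nt.Tw
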