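import Pool.Agent.MP_9b2bac_nt.Tw.Stmt

/-! The tower has no maximal field, and the construction of the tower. -/

set_option autoImplicit false

open NumberField IsDedekindDomain Module

namespace Pool.Agent.MP_9b2bac_nt.Tw

open Pool.Agent.MP_f3cd89_nt

theorem main (hG : GS_st) (hE : EMB_st) (hI : INV_st) (hP : PHI_st) (hC : CLS_st)
    (hT : THETA_st) (hS : SQB_st) : MAIN_st := by
  intro p _ K L _ _ _ _ _ _ _ a h2 ha ha' hp hU
  by_contra hc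
  push Not at hc
  obtain ⟨T₁, _, Ψ₁, c₁, h₁⟩ := hI ℝ K L 16 hS.1 h2
  obtain ⟨T₂, _, Ψ₂, c₂, h₂⟩ := hI ℚ_[2] K L 16 (hS.2 2) h2
  obtain ⟨T₃, _, Ψ₃, c₃, h₃⟩ := hI ℚ_[p] K L 16 (hS.2 p) h2
  have hs : Sepr K fun x : L => (Ψ₁ x, Ψ₂ x, Ψ₃ x) := fun x y hx hy hi he h => by
    simp only [Prod.mk.injEq] at h
    exact hc _ ⟨mul_ne_zero hx hy, he, h₁ x y hx hy hi h.1, h₂ x y hx hy hi h.2.1,
      h₃ x y hx hy hi h.2.2⟩
  have cB : Nat.card (T₁ × T₂ × T₃) ≤ 2 ^ 24 := by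
    rw [Nat.card_prod, Nat.card_prod]
    calc _ ≤ 16 ^ 2 * (16 ^ 2 * 16 ^ 2) := Nat.mul_le_mul c₁ (Nat.mul_le_mul c₂ c₃)
      _ = 2 ^ 24 := by norm_num
  obtain ⟨⟨d, hd⟩, hg⟩ := hG _ hp
  have fin : Finite ((L ≃ₐ[K] L) →* Multiplicative (ZMod 2)) :=
    Nat.finite_of_card_ne_zero (by rw [hd]; positivity)
  obtain ⟨Φ, hΦ⟩ := hP K L _ _ hs
  have cΦ : Nat.card ((T₁ × T₂ × T₃) × ((L ≃ₐ[K] L) →* Multiplicative (ZMod 2))) ≤
      2 ^ (24 + d) := by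
    rw [Nat.card_prod, hd, pow_add]
    exact Nat.mul_le_mul_right _ cB
  have d16 : 16 ≤ d := by
    have h4 := Nat.card_le_card_of_injective (fun e => Φ (a e)) fun e e' h =>
      ha' e e' (hΦ _ _ (ha e).1 (ha e').1 (ha e).2 (ha e').2 h)
    have h5 : Nat.card (Fin 40 → Bool) = 2 ^ 40 := by
      rw [Nat.card_fun, Nat.card_eq_fintype_card, Nat.card_eq_fintype_card, Fintype.card_bool,
        Fintype.card_fin]
    have h6 := (Nat.pow_le_pow_iff_right (by norm_num : 1 < 2)).1 (h5 ▸ h4.trans cΦ)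
    omega
  obtain ⟨U, _, Ξ, cU, hΞ⟩ := hC K _ Φ hΦ
  obtain ⟨Θ, hΘ⟩ := hT K L _ U _ Ξ hU (hE K L hp hU) hs hΞ
  have h7 := hg d (24 + d + 24) _ Θ hd (by omega) (by
    rw [Nat.card_prod, pow_add]
    exact Nat.mul_le_mul (cU.trans cΦ) cB) hΘ
  nlinarith

theorem ur_self (K : Type) [Field K] [NumberField K] : Ur K K := fun w => by
  obtain ⟨a, -, ha⟩ := exists_ord_eq_one w
  have h := (ord_over (over_under (E := K) w) (a : K)).symm.trans ha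
  exact_mod_cast Int.eq_one_of_mul_eq_one_right (Int.natCast_nonneg _) h

theorem top (hM : MAIN_st) (hF : FIX_st) (hX : EXT_st) (hU : UNR_st) (hT : TWO_st)
    (hD : DISC_st) (hB : BASE_st) : TOWER_st := by
  obtain ⟨C, hC⟩ := hB 40
  refine ⟨C, fun p _ j hj => ?_⟩
  obtain ⟨K, _, _, h2, hd, s₁, s₂, s₃, a, ha, ha'⟩ := hC p
  have key : ∀ i : ℕ, ∃ (L : Type) (_ : Field L) (_ : NumberField L) (_ : Algebra K L),
      IsGalois K L ∧ finrank K L = 2 ^ i ∧ Ur K L ∧ Spl ℝ L ∧ Spl ℚ_[2] L ∧ Spl ℚ_[p] L := by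
    intro i
    induction i with
    | zero => exact ⟨K, _, inferInstance, _, inferInstance, finrank_self K, ur_self K, s₁, s₂, s₃⟩
    | succ i ih =>
      obtain ⟨L, _, _, _, _, hr, hu, t₁, t₂, t₃⟩ := ih
      have := hT.2.1 L t₁
      have hp : IsPGroup 2 (L ≃ₐ[K] L) :=
        IsPGroup.of_card (n := i) (by rw [IsGalois.card_aut_eq_finrank, hr])
      obtain ⟨x₀, g₀, n₀⟩ := hM p K L a h2 ha ha' hp hu
      obtain ⟨x, g, n, hi⟩ := hF p K L hp x₀ g₀ n₀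
      obtain ⟨M, _, _, _, _, _, y, _, hr', hy, hs, hsp⟩ := hX K L x n hi
      have : IsGalois L M := IsGalois.tower_top_of_isGalois K L M
      have u₂ := hsp _ t₂ g.2.2.2.1
      refine ⟨M, _, inferInstance, _, inferInstance, ?_, ?_, hsp _ t₁ g.2.2.1, u₂, hsp _ t₃ g.2.2.2.2⟩
      · rw [← finrank_mul_finrank K L M, hr, hr', pow_succ]
      · refine hD.2 K L M hu (hU L M x y g.1 g.2.1 hy hs) fun w hw => ?_
        simpa using hT.1 2 M u₂ w (by simpa using hw)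
  obtain ⟨i, rfl⟩ : ∃ i, j = i + 1 := ⟨j - 1, by omega⟩
  obtain ⟨L, _, _, _, _, hr, hu, t₁, t₂, t₃⟩ := key i
  refine ⟨L, _, inferInstance, hT.2.1 L t₁, ?_, ?_, hT.2.2 _ L t₃, t₂, t₃⟩
  · rw [← finrank_mul_finrank ℚ K L, h2, hr, pow_succ']
  · have c1 : 1 ≤ C := le_trans (Int.natAbs_pos.2 (discr_ne_zero K)) hd
    rw [hD.1 K L hu, hr]
    exact (Nat.pow_le_pow_left hd _).trans
      (Nat.pow_le_pow_right c1 (Nat.pow_le_pow_right two_pos (Nat.le_succ i)))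

end Pool.Agent.MP_9b2bac_nt.Tw
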