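import Pool.Agent.MP_9b2bac_nt.Tw.Stmt
set_option autoImplicit false
open NumberField IsDedekindDomain Module
namespace Pool.Agent.MP_9b2bac_nt.Tw
open Pool.Agent.MP_f3cd89_nt

theorem chr_Phi {k L : Type} [Field k] [Field L] [CharZero L] [Algebra k L] {δ : L} (h0 : δ ≠ 0)
    {a : k} (h : algebraMap k L a = δ * δ) :
    ∃ χ : (L ≃ₐ[k] L) →* Multiplicative (ZMod 2), ∀ g, g δ = (if χ g = 1 then 1 else -1) * δ := by
  have h1 : ∀ g : L ≃ₐ[k] L, ∃ u : Multiplicative (ZMod 2),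
      g δ = (if u = 1 then 1 else -1) * δ := fun g => by
    have e : g δ * g δ = δ * δ := by rw [← map_mul, ← h, g.commutes]
    rcases mul_self_eq_mul_self_iff.1 e with e | e
    · exact ⟨1, by simpa using e⟩
    · exact ⟨Multiplicative.ofAdd 1, by rw [if_neg (by decide)]; simpa using e⟩
  choose u hu using h1
  have h2 : ∀ x y : Multiplicative (ZMod 2), (x * y = 1 ↔ x = y) ∧ (x ≠ 1 → y ≠ 1 → x = y) := by
    decide
  have h3 : ∀ x y : Multiplicative (ZMod 2), (if x * y = 1 then (1 : L) else -1) =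
      (if x = 1 then 1 else -1) * (if y = 1 then 1 else -1) := fun x y => by
    by_cases hx : x = 1
    · simp [hx]
    by_cases hy : y = 1
    · simp [hy]
    rw [if_pos ((h2 x y).1.2 ((h2 x y).2 hx hy)), if_neg hx, if_neg hy]
    ring
  have h4 : ∀ x y : Multiplicative (ZMod 2),
      (if x = 1 then (1 : L) else -1) = (if y = 1 then 1 else -1) → x = y := fun x y e => by
    by_cases hx : x = 1 <;> by_cases hy : y = 1
    · rw [hx, hy]
    · rw [if_pos hx, if_neg hy] at e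
      norm_num at e
    · rw [if_neg hx, if_pos hy] at e
      norm_num at e
    · exact (h2 x y).2 hx hy
  refine ⟨MonoidHom.mk' u fun g g' => h4 _ _ (mul_right_cancel₀ h0 ?_), hu⟩
  have h5 : g (if u g' = 1 then (1 : L) else -1) = if u g' = 1 then 1 else -1 := by
    split_ifs <;> simp
  rw [← hu, AlgEquiv.mul_apply, hu g', map_mul, h5, hu g, h3]
  ring

theorem phi : PHI_st := by
  intro K L _ _ _ _ _ _ T Ψ hΨ
  let r : T → K := fun t => Classical.epsilon fun a => a ≠ 0 ∧ Ev a ∧ Ψ (algebraMap K L a) = t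
  have hr : ∀ a : K, a ≠ 0 → Ev a → r (Ψ (algebraMap K L a)) ≠ 0 ∧ Ev (r (Ψ (algebraMap K L a))) ∧
      Ψ (algebraMap K L (r (Ψ (algebraMap K L a)))) = Ψ (algebraMap K L a) := fun a h h' =>
    Classical.epsilon_spec (p := fun b => b ≠ 0 ∧ Ev b ∧ Ψ (algebraMap K L b) =
      Ψ (algebraMap K L a)) ⟨a, h, h', rfl⟩
  have h1 : ∀ a : K, ∃ (z : L) (χ : (L ≃ₐ[K] L) →* Multiplicative (ZMod 2)), a ≠ 0 → Ev a →
      algebraMap K L (a * r (Ψ (algebraMap K L a))) = z * z ∧
        ∀ g, g z = (if χ g = 1 then 1 else -1) * z := fun a => by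
    by_cases h : a ≠ 0 ∧ Ev a
    · obtain ⟨r0, r1, r2⟩ := hr a h.1 h.2
      obtain ⟨z, hz⟩ := hΨ _ _ ((map_ne_zero _).2 h.1) ((map_ne_zero _).2 r0)
        (fun g => ⟨1, by rw [← map_mul, g.commutes, one_pow, mul_one]⟩) (fun w => by
          rw [← map_mul, ord_over (over_under (E := K) w), ord_mul _ h.1 r0]
          exact ((h.2 _).add (r1 _)).mul_left _) r2.symm
      rw [← map_mul] at hz
      have z0 : z ≠ 0 := by
        rintro rfl
        exact mul_ne_zero h.1 r0 ((map_eq_zero _).1 (hz.trans (mul_zero _)))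
      obtain ⟨χ, hχ⟩ := chr_Phi z0 hz
      exact ⟨z, χ, fun _ _ => ⟨hz, hχ⟩⟩
    · exact ⟨0, 1, fun h1 h2 => absurd ⟨h1, h2⟩ h⟩
  choose z χ hz using h1
  refine ⟨fun a => (Ψ (algebraMap K L a), χ a), fun a b ha hb ea eb e => ?_⟩
  have e1 : Ψ (algebraMap K L a) = Ψ (algebraMap K L b) := congrArg Prod.fst e
  have e2 : χ a = χ b := congrArg Prod.snd e
  obtain ⟨a1, a2⟩ := hz a ha ea
  obtain ⟨b1, b2⟩ := hz b hb eb
  obtain ⟨c, hc⟩ := (IsGalois.mem_range_algebraMap_iff_fixed (F := K) (z a * z b)).2 fun g => by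
    rw [map_mul, a2, b2, e2]
    split_ifs <;> ring
  have r0 := (hr b hb eb).1
  rw [e1] at a1
  have e3 : a * r (Ψ (algebraMap K L b)) * (b * r (Ψ (algebraMap K L b))) = c * c :=
    (algebraMap K L).injective (by
      rw [map_mul, a1, b1, map_mul, hc]
      ring)
  refine ⟨c / r (Ψ (algebraMap K L b)), ?_⟩
  field_simp
  linear_combination e3

end Pool.Agent.MP_9b2bac_nt.Tw
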