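import Pool.Agent.MP_9b2bac_nt.Tw.Stmt

/-! The second inequality for an unramified totally real quadratic extension. -/

set_option autoImplicit false

open NumberField IsDedekindDomain Module

namespace Pool.Agent.MP_9b2bac_nt.Tw

open Pool.Agent.MP_f3cd89_nt

theorem two_Si2 {G : Type} [Group G] (hc : Nat.card G = 2) {s : G} (hs : s ≠ 1) (g : G) :
    g = 1 ∨ g = s := by
  obtain ⟨y, -, hy⟩ := (Nat.card_eq_two_iff' 1).1 hc
  by_cases h : g = 1
  · exact Or.inl h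
  · exact Or.inr ((hy g h).trans (hy s hs).symm)

variable {F M : Type} [Field F] [NumberField F] [Field M] [NumberField M] [Algebra F M]

/-- divisors of the base whose pull back is principal up to a norm -/
def H_Si2 (s : M ≃ₐ[F] M) : AddSubgroup (Pr F →₀ ℤ) where
  carrier := {D | ∃ (a : M) (E : Pr M →₀ ℤ), a ≠ 0 ∧ s a = a ∧
    ∀ w : Pr M, D (w.under (𝓞 F)) = ord w a + (E w + E (gact s w))}
  zero_mem' := ⟨1, 0, one_ne_zero, map_one _, fun w => by simp [ord_one]⟩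
  add_mem' := by
    rintro D D' ⟨a, E, ha, hs, h⟩ ⟨a', E', ha', hs', h'⟩
    refine ⟨a * a', E + E', mul_ne_zero ha ha', by rw [map_mul, hs, hs'], fun w => ?_⟩
    rw [Finsupp.add_apply, h, h', ord_mul w ha ha', Finsupp.add_apply, Finsupp.add_apply]
    ring
  neg_mem' := by
    rintro D ⟨a, E, ha, hs, h⟩
    refine ⟨a⁻¹, -E, inv_ne_zero ha, by rw [map_inv₀, hs], fun w => ?_⟩
    rw [Finsupp.neg_apply, h, ord_inv, Finsupp.neg_apply, Finsupp.neg_apply]
    ring

theorem pull_Si2 (D : Pr M →₀ ℤ)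
    (hD : ∀ w w' : Pr M, w.under (𝓞 F) = w'.under (𝓞 F) → D w = D w') :
    ∃ D₀ : Pr F →₀ ℤ, ∀ w : Pr M, D₀ (w.under (𝓞 F)) = D w := by
  classical
  choose c hc using under_surj (E := F) (E' := M)
  refine ⟨Finsupp.onFinset (D.support.image fun w => w.under (𝓞 F)) (fun v => D (c v))
    fun v hv => Finset.mem_image.2 ⟨c v, Finsupp.mem_support_iff.2 hv, hc v⟩, fun w => ?_⟩
  exact hD _ _ (hc _)

theorem si2 (hF : FB_st) (hS : SI_st) : SI2_st := by
  intro F M _ _ _ _ _ _ _ s h2 hs hU D D' hD hD'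
  classical
  have hc : Nat.card (M ≃ₐ[F] M) = 2 := (IsGalois.card_aut_eq_finrank F M).trans h2
  have : IsTotallyReal F := IsTotallyReal.of_algebra F M
  obtain ⟨f1, f2, -, f4, -, f6, -, f8⟩ := hF F M (M ≃ₐ[F] M)
  obtain ⟨φ, hφ⟩ := f4 ∅
  have hss : s * s = 1 := (two_Si2 hc hs (s * s)).resolve_right fun h => hs (by simpa using h)
  obtain ⟨i0, i2⟩ := hS F M (M ≃ₐ[F] M) ∅ φ ⊥ 1 (H_Si2 s) inferInstance
    (fun w _ => (f6 w).2 (hU w)) hφ one_pos
    (fun x hx => ⟨algebraMap F M x, 0, by simpa using hx.1, s.commutes x, fun w => by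
      rw [ord_over (over_under w), hU w]
      simp⟩)
    (fun v hv h1 => by
      obtain ⟨w, rfl, hw⟩ := hφ v hv
      rw [Subgroup.mem_bot] at h1
      rw [h1] at hw
      have hne : gact s w ≠ w := fun h => hs (by
        simpa using ((f8 w 1 ((f6 w).2 (hU w)) hw).2.1 s).1 h)
      refine ⟨1, Finsupp.single w 1, one_ne_zero, map_one _, fun w' => ?_⟩
      rw [ord_one, zero_add]
      by_cases h : w.under (𝓞 F) = w'.under (𝓞 F)
      · obtain ⟨g, rfl⟩ := f2 w w' h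
        rw [← h]
        rcases two_Si2 hc hs g with rfl | rfl
        · rw [gact_one, Finsupp.single_eq_of_ne hne]
          simp
        · rw [← gact_mul, hss, gact_one, Finsupp.single_eq_of_ne hne]
          simp
      · have e1 : w' ≠ w := fun e => h (by rw [e])
        have e2 : gact s w' ≠ w := fun e => h (by rw [← e, f1])
        rw [Finsupp.single_eq_of_ne (Ne.symm h), Finsupp.single_eq_of_ne e1,
          Finsupp.single_eq_of_ne e2, add_zero])
  have ht : off (∅ : Finset (Pr F)) = ⊤ := eq_top_iff.2 fun D _ v hv => absurd hv (by simp)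
  rw [ht, AddSubgroup.relIndex_top_right] at i0 i2
  rw [Subgroup.index_bot, hc] at i2
  have key : ∀ D : Pr M →₀ ℤ, (∀ w, D (gact s w) = D w) →
      ∃ D₀ : Pr F →₀ ℤ, ∀ w : Pr M, D₀ (w.under (𝓞 F)) = D w := fun D hD =>
    pull_Si2 D fun w w' h => by
      obtain ⟨g, rfl⟩ := f2 w w' h
      rcases two_Si2 hc hs g with rfl | rfl
      · rw [gact_one]
      · exact (hD w).symm
  obtain ⟨D₀, h₀⟩ := key D hD
  obtain ⟨D₁, h₁⟩ := key D' hD'
  by_cases m₀ : D₀ ∈ H_Si2 s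
  · obtain ⟨a, E, ha, hsa, h⟩ := m₀
    exact ⟨D, Or.inl rfl, a, E, ha, hsa, fun w => (h₀ w).symm.trans (h w)⟩
  by_cases m₁ : D₁ ∈ H_Si2 s
  · obtain ⟨a, E, ha, hsa, h⟩ := m₁
    exact ⟨D', Or.inr (Or.inl rfl), a, E, ha, hsa, fun w => (h₁ w).symm.trans (h w)⟩
  have i1 : (H_Si2 s).index ≠ 1 := fun h => m₀ (by
    rw [AddSubgroup.index_eq_one.1 h]
    exact AddSubgroup.mem_top _)
  obtain ⟨a, E, ha, hsa, h⟩ : D₀ + -D₁ ∈ H_Si2 s :=
    (AddSubgroup.add_mem_iff_of_index_two (by omega)).2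
      (iff_of_false m₀ fun h => m₁ ((AddSubgroup.neg_mem_iff _).1 h))
  refine ⟨D - D', Or.inr (Or.inr rfl), a, E, ha, hsa, fun w => ?_⟩
  rw [← h w, Finsupp.add_apply, Finsupp.neg_apply, h₀, h₁, Finsupp.sub_apply, sub_eq_add_neg]

end Pool.Agent.MP_9b2bac_nt.Tw
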