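import Pool.Agent.MP_9b2bac_nt.Tw.Stmt

set_option autoImplicit false

open NumberField IsDedekindDomain Module

namespace Pool.Agent.MP_9b2bac_nt.Tw

open Pool.Agent.MP_f3cd89_nt

theorem ofFin_Sqb (k : Type) [Field k] (T : Type) [Fintype T] (hT : Fintype.card T ≤ 16)
    (f : k → T) (hf : ∀ x y : k, x ≠ 0 → y ≠ 0 → f x = f y → IsSquare (x * y)) : SqB k 16 := by
  obtain ⟨e⟩ : Nonempty (T ↪ Fin 16) := Function.Embedding.nonempty_of_card_le (by simpa using hT)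
  exact ⟨fun x => e (f x), fun x y hx hy h => hf x y hx hy (e.injective h)⟩

theorem hensel_Sqb {l : ℕ} [Fact l.Prime] (w a : ℤ_[l]) (h : ‖a ^ 2 - w‖ < ‖2 * a‖ ^ 2) :
    IsSquare w := by
  obtain ⟨z, hz, -⟩ := hensels_lemma (F := Polynomial.X ^ 2 - Polynomial.C w) (a := a) (by
    have e2 : (Polynomial.X ^ 2 - Polynomial.C w).derivative.aeval a = 2 * a := by
      simp [one_add_one_eq_two]
    have e3 : (Polynomial.X ^ 2 - Polynomial.C w).aeval a = a ^ 2 - w := by simp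
    rw [e2, e3]
    exact h)
  have e : z ^ 2 - w = 0 := by simpa using hz
  exact ⟨z, by rw [← sub_eq_zero.mp e, pow_two]⟩

theorem split_Sqb (l : ℕ) [Fact l.Prime] (x : ℚ_[l]) :
    ∃ (v : ℤ) (u : ℤ_[l]ˣ), x ≠ 0 → x = (l : ℚ_[l]) ^ v * (u : ℤ_[l]) := by
  by_cases hx : x = 0
  · exact ⟨0, 1, fun h => (h hx).elim⟩
  have hl : (l : ℚ_[l]) ≠ 0 := Nat.cast_ne_zero.2 (Fact.out : l.Prime).ne_zero
  have hl' : (l : ℝ) ≠ 0 := Nat.cast_ne_zero.2 (Fact.out : l.Prime).ne_zero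
  have h1 : ‖x * (l : ℚ_[l]) ^ (-x.valuation)‖ = 1 := by
    rw [norm_mul, Padic.norm_eq_zpow_neg_valuation hx, Padic.norm_p_zpow, ← zpow_add₀ hl']
    simp
  refine ⟨x.valuation, PadicInt.mkUnits h1, fun _ => ?_⟩
  rw [PadicInt.mkUnits_eq, mul_left_comm, ← zpow_add₀ hl]
  simp

theorem units_Sqb (l : ℕ) [Fact l.Prime] (T : Type) [Fintype T] (hT : Fintype.card T ≤ 8)
    (g : ℤ_[l]ˣ → T) (hg : ∀ u u', g u = g u' → IsSquare ((u : ℤ_[l]) * u')) : SqB ℚ_[l] 16 := by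
  choose v u h using split_Sqb l
  have hl : (l : ℚ_[l]) ≠ 0 := Nat.cast_ne_zero.2 (Fact.out : l.Prime).ne_zero
  refine ofFin_Sqb _ (Bool × T) (by simp; omega) (fun x => (decide (Even (v x)), g (u x)))
    fun x y hx hy e => ?_
  obtain ⟨e1, e2⟩ := Prod.mk.inj e
  obtain ⟨z, hz⟩ := hg _ _ e2
  obtain ⟨m, hm⟩ : Even (v x + v y) := Int.even_add.2 (by simpa using e1)
  refine ⟨(l : ℚ_[l]) ^ m * z, ?_⟩
  have hz' : ((u x : ℤ_[l]) : ℚ_[l]) * ((u y : ℤ_[l]) : ℚ_[l]) = z * z := by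
    rw [← PadicInt.coe_mul, hz, PadicInt.coe_mul]
  calc x * y = ((l : ℚ_[l]) ^ v x * (u x : ℤ_[l])) * ((l : ℚ_[l]) ^ v y * (u y : ℤ_[l])) := by
        rw [← h x hx, ← h y hy]
    _ = (l : ℚ_[l]) ^ (v x + v y) * (((u x : ℤ_[l]) : ℚ_[l]) * ((u y : ℤ_[l]) : ℚ_[l])) := by
        rw [zpow_add₀ hl]; ring
    _ = _ := by rw [hz', hm, zpow_add₀ hl]; ring

theorem two_Sqb : SqB ℚ_[2] 16 := by
  refine units_Sqb 2 (ZMod (2 ^ 3)) (by simp) (fun u => PadicInt.toZModPow 3 (u : ℤ_[2]))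
    fun u u' e => hensel_Sqb _ 1 ?_
  have key : ∀ a b : ZMod (2 ^ 3), a * b = 1 → 1 ^ 2 - a * a = 0 := by decide
  have h1 : (1 : ℤ_[2]) ^ 2 - u * u' ∈ RingHom.ker (PadicInt.toZModPow (p := 2) 3) := by
    rw [RingHom.mem_ker, map_sub, map_pow, map_one, map_mul, ← e]
    exact key _ (PadicInt.toZModPow 3 ((u⁻¹ : ℤ_[2]ˣ) : ℤ_[2])) (by rw [← map_mul]; simp)
  rw [PadicInt.ker_toZModPow, ← PadicInt.norm_le_pow_iff_mem_span_pow] at h1
  have h2 : ‖(2 : ℤ_[2])‖ = (2 : ℝ)⁻¹ := by exact_mod_cast PadicInt.norm_p (p := 2)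
  rw [mul_one, h2]
  exact h1.trans_lt (by norm_num)

theorem odd_Sqb (l : ℕ) [Fact l.Prime] (hl : l ≠ 2) : SqB ℚ_[l] 16 := by
  refine units_Sqb l Bool (by simp)
    (fun u => decide (quadraticChar (ZMod l) (PadicInt.toZMod (u : ℤ_[l])) = 1)) fun u u' e => ?_
  have hne : ∀ u : ℤ_[l]ˣ, PadicInt.toZMod (u : ℤ_[l]) ≠ 0 := fun u =>
    (u.isUnit.map (PadicInt.toZMod (p := l))).ne_zero
  have h0 : PadicInt.toZMod ((u : ℤ_[l]) * (u' : ℤ_[l])) ≠ 0 := by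
    rw [map_mul]; exact mul_ne_zero (hne u) (hne u')
  have h1 : quadraticChar (ZMod l) (PadicInt.toZMod ((u : ℤ_[l]) * (u' : ℤ_[l]))) = 1 := by
    rw [map_mul, map_mul]
    have e' := decide_eq_decide.1 e
    rcases quadraticChar_dichotomy (hne u) with a | a <;>
      rcases quadraticChar_dichotomy (hne u') with b | b <;> simp_all
  obtain ⟨b, hb⟩ := (quadraticChar_one_iff_isSquare h0).1 h1
  have hv : PadicInt.toZMod ((b.val : ℕ) : ℤ_[l]) = b := by simp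
  have hb0 : b ≠ 0 := by rintro rfl; exact h0 (by simpa using hb)
  have hn : ∀ z : ℤ_[l], ‖z‖ < 1 ↔ PadicInt.toZMod z = 0 := fun z => by
    rw [← PadicInt.mem_nonunits, ← IsLocalRing.mem_maximalIdeal, ← PadicInt.ker_toZMod,
      RingHom.mem_ker]
  refine hensel_Sqb _ (b.val : ℕ) ?_
  have h2 : (2 : ZMod l) ≠ 0 := by
    intro h
    have := (ZMod.natCast_eq_zero_iff 2 l).1 (by exact_mod_cast h)
    exact hl ((Nat.prime_dvd_prime_iff_eq Fact.out Nat.prime_two).1 this)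
  have h3 : ‖2 * ((b.val : ℕ) : ℤ_[l])‖ = 1 := by
    refine le_antisymm (PadicInt.norm_le_one _) (not_lt.1 fun h => ?_)
    rw [hn, map_mul, hv, map_ofNat] at h
    exact mul_ne_zero h2 hb0 h
  rw [h3, one_pow, hn, map_sub, map_pow, hv, hb, pow_two, sub_self]

theorem sqb : SQB_st := by
  refine ⟨ofFin_Sqb ℝ Bool (by simp) (fun x => decide (0 < x)) fun x y hx hy e => ?_, fun l _ => ?_⟩
  · have e' := decide_eq_decide.1 e
    have h : 0 ≤ x * y := by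
      rcases hx.lt_or_gt with a | a
      · exact mul_nonneg_of_nonpos_of_nonpos a.le (not_lt.1 fun b => a.not_gt (e'.2 b))
      · exact (mul_pos a (e'.1 a)).le
    exact ⟨√(x * y), (Real.mul_self_sqrt h).symm⟩
  · by_cases hl : l = 2
    · subst hl; exact two_Sqb
    · exact odd_Sqb l hl

end Pool.Agent.MP_9b2bac_nt.Tw
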