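import Pool.Agent.MP_f3cd89_nt.CStm

/-! Statements of the steps in the construction of totally real fields of bounded root
discriminant in which a given prime splits completely. -/

set_option autoImplicit false

open NumberField IsDedekindDomain Module

namespace Pool.Agent.MP_9b2bac_nt.Tw

open Pool.Agent.MP_f3cd89_nt

/-- every embedding of `L` into an algebraic closure of `k` has values in `k` -/
def Spl (k L : Type) [Field k] [Field L] : Prop :=
  ∀ ψ : L →+* AlgebraicClosure k, ∃ φ : L →+* k, ∀ x, ψ x = algebraMap k _ (φ x)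

/-- `x` is a square under every embedding into `k` -/
def SqAt (k : Type) [Field k] {L : Type} [Field L] (x : L) : Prop :=
  ∀ φ : L →+* k, IsSquare (φ x)

/-- `k` has at most `N` square classes -/
def SqB (k : Type) [Field k] (N : ℕ) : Prop :=
  ∃ f : k → Fin N, ∀ x y : k, x ≠ 0 → y ≠ 0 → f x = f y → IsSquare (x * y)

/-- all valuations of `x` are even -/
def Ev {L : Type} [Field L] [NumberField L] (x : L) : Prop := ∀ w : Pr L, Even (ord w x)

/-- `L` is unramified over `K` at all finite primes -/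
def Ur (K L : Type) [Field K] [Field L] [Algebra K L] : Prop :=
  ∀ w : Pr L, w.asIdeal.ramificationIdx (𝓞 K) = 1

/-- the square class of `x` is invariant under the Galois group -/
def InvSq (K : Type) [Field K] {L : Type} [Field L] [Algebra K L] (x : L) : Prop :=
  ∀ σ : L ≃ₐ[K] L, ∃ u : L, σ x = x * u ^ 2

/-- an element whose square root generates an extension in the tower -/
def Good (p : ℕ) [Fact p.Prime] {L : Type} [Field L] [NumberField L] (x : L) : Prop :=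
  x ≠ 0 ∧ Ev x ∧ SqAt ℝ x ∧ SqAt ℚ_[2] x ∧ SqAt ℚ_[p] x

/-- `Ψ` separates the invariant square classes with even valuations -/
def Sepr (K : Type) [Field K] {L : Type} [Field L] [NumberField L] [Algebra K L] {T : Type}
    (Ψ : L → T) : Prop :=
  ∀ x y : L, x ≠ 0 → y ≠ 0 → InvSq K (x * y) → Ev (x * y) → Ψ x = Ψ y → IsSquare (x * y)

/-- a two-cocycle -/
def IsCoc {G : Type} [Group G] (c : G → G → ZMod 2) : Prop :=
  ∀ g h j, c (g * h) j + c g h = c h j + c g (h * j)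

/-- every two-cocycle with values in the signs is a coboundary in the multiplicative group -/
def Emb (K L : Type) [Field K] [Field L] [Algebra K L] : Prop :=
  ∀ c : (L ≃ₐ[K] L) → (L ≃ₐ[K] L) → ZMod 2, IsCoc c → ∃ y : (L ≃ₐ[K] L) → L,
    (∀ g, y g ≠ 0) ∧ ∀ g h, y g * g (y h) = (-1) ^ (c g h).val * y (g * h)

/-- the inequality of Golod and Shafarevich -/
def GS_st : Prop := ∀ (G : Type) [Group G] [Finite G], IsPGroup 2 G →
  (∃ d : ℕ, Nat.card (G →* Multiplicative (ZMod 2)) = 2 ^ d) ∧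
  ∀ (d r : ℕ) (T : Type) [Finite T] (Θ : (G → G → ZMod 2) → T),
    Nat.card (G →* Multiplicative (ZMod 2)) = 2 ^ d → 2 ≤ d → Nat.card T ≤ 2 ^ r →
    (∀ c c', IsCoc c → IsCoc c' → Θ c = Θ c' →
      ∃ b : G → ZMod 2, ∀ g h, c g h - c' g h = b g + b h - b (g * h)) → d ^ 2 < 4 * r

/-- induction along subgroups of index two -/
def IND_st : Prop := ∀ (G : Type) [Group G] [Finite G], IsPGroup 2 G →
  ∀ (P : Subgroup G → Prop) (H₀ : Subgroup G), P H₀ →
    (∀ (H H' : Subgroup G) (s : G), H₀ ≤ H → P H → s ∉ H → s * s ∈ H →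
      (∀ h ∈ H, s * h * s⁻¹ ∈ H) → (∀ g, g ∈ H' ↔ g ∈ H ∨ g * s⁻¹ ∈ H) → P H') → P ⊤

/-- the count of ambiguous classes, in abstract form -/
def AMB_st : Prop := ∀ (A I : Type) [AddCommGroup A] [AddCommGroup I] (σ : AddMonoid.End A)
  (τ : AddMonoid.End I) (j : A →+ I), σ ^ 2 = 1 → τ ^ 2 = 1 → (∀ a, j (σ a) = τ (j a)) →
  j.range.index ≠ 0 → (∀ a, a + σ a = 0 → ∃ b, a = σ b - b) →
  (∀ x y : I, τ x = x → τ y = y → ∃ z, (z = x ∨ z = y ∨ z = x - y) ∧
    ∃ a e, σ a = a ∧ z = j a + (e + τ e)) →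
  hz σ 2 j.ker ≠ 0 → ho σ 2 j.ker = 2 * hz σ 2 j.ker →
  ∀ a e, σ a = a → j a = e + τ e → ∃ b, a = b + σ b

/-- the second inequality for an unramified totally real quadratic extension -/
def SI2_st : Prop := ∀ (F M : Type) [Field F] [NumberField F] [Field M] [NumberField M]
  [Algebra F M] [IsGalois F M] [IsTotallyReal M] (s : M ≃ₐ[F] M), finrank F M = 2 → s ≠ 1 →
  Ur F M → ∀ D D' : Pr M →₀ ℤ, (∀ w, D (gact s w) = D w) → (∀ w, D' (gact s w) = D' w) →
  ∃ Z, (Z = D ∨ Z = D' ∨ Z = D - D') ∧ ∃ (a : M) (E : Pr M →₀ ℤ), a ≠ 0 ∧ s a = a ∧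
    ∀ w, Z w = ord w a + (E w + E (gact s w))

/-- the norm theorem for an unramified totally real quadratic extension -/
def HNT_st : Prop := ∀ (F M : Type) [Field F] [NumberField F] [Field M] [NumberField M]
  [Algebra F M] [IsGalois F M] [IsTotallyReal M] (s : M ≃ₐ[F] M), finrank F M = 2 → s ≠ 1 →
  Ur F M → ∀ (a : M) (D : Pr M →₀ ℤ), a ≠ 0 → s a = a →
  (∀ w, ord w a = D w + D (gact s w)) → ∃ μ : M, μ * s μ = a

/-- the norm theorem for a pair of subgroups -/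
def HNS_st : Prop := ∀ (K L : Type) [Field K] [NumberField K] [Field L] [NumberField L]
  [Algebra K L] [IsGalois K L] [IsTotallyReal L], Ur K L →
  ∀ (H : Subgroup (L ≃ₐ[K] L)) (s : L ≃ₐ[K] L), s ∉ H → s * s ∈ H → (∀ h ∈ H, s * h * s⁻¹ ∈ H) →
  ∀ (a : L) (D : Pr L →₀ ℤ), a ≠ 0 → (∀ h ∈ H, h a = a) → s a = a →
  (∀ h ∈ H, ∀ w, D (gact h w) = D w) → (∀ w, ord w a = D w + D (gact s w)) →
  ∃ μ : L, (∀ h ∈ H, h μ = μ) ∧ μ * s μ = a

/-- the embedding problem -/
def EMB_st : Prop := ∀ (K L : Type) [Field K] [NumberField K] [Field L] [NumberField L]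
  [Algebra K L] [IsGalois K L] [IsTotallyReal L], IsPGroup 2 (L ≃ₐ[K] L) → Ur K L → Emb K L

/-- local square classes of invariant elements -/
def INV_st : Prop := ∀ (k K L : Type) [Field k] [CharZero k] [Field K] [NumberField K] [Field L]
  [NumberField L] [Algebra K L] [IsGalois K L] (N : ℕ), SqB k N → finrank ℚ K = 2 →
  ∃ (T : Type) (_ : Finite T) (Ψ : L → T), Nat.card T ≤ N ^ 2 ∧
    ∀ x y : L, x ≠ 0 → y ≠ 0 → InvSq K (x * y) → Ψ x = Ψ y → SqAt k (x * y)

/-- square classes of the base field with even valuations -/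
def PHI_st : Prop := ∀ (K L : Type) [Field K] [NumberField K] [Field L] [NumberField L]
  [Algebra K L] [IsGalois K L] (T : Type) (Ψ : L → T), Sepr K Ψ →
  ∃ Φ : K → T × ((L ≃ₐ[K] L) →* Multiplicative (ZMod 2)),
    ∀ a b : K, a ≠ 0 → b ≠ 0 → Ev a → Ev b → Φ a = Φ b → IsSquare (a * b)

/-- the class group modulo squares -/
def CLS_st : Prop := ∀ (K : Type) [Field K] [NumberField K] (T : Type) [Finite T] (Φ : K → T),
  (∀ a b : K, a ≠ 0 → b ≠ 0 → Ev a → Ev b → Φ a = Φ b → IsSquare (a * b)) →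
  ∃ (U : Type) (_ : Finite U) (Ξ : (Pr K →₀ ℤ) → U), Nat.card U ≤ Nat.card T ∧
    ∀ D D', Ξ D = Ξ D' → ∃ a : K, a ≠ 0 ∧ ∀ v, Even (D v + D' v + ord v a)

/-- invariants that classify two-cocycles -/
def THETA_st : Prop := ∀ (K L : Type) [Field K] [NumberField K] [Field L] [NumberField L]
  [Algebra K L] [IsGalois K L] (T U : Type) (Ψ : L → T) (Ξ : (Pr K →₀ ℤ) → U), Ur K L → Emb K L →
  Sepr K Ψ → (∀ D D', Ξ D = Ξ D' → ∃ a : K, a ≠ 0 ∧ ∀ v, Even (D v + D' v + ord v a)) →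
  ∃ Θ : ((L ≃ₐ[K] L) → (L ≃ₐ[K] L) → ZMod 2) → U × T, ∀ c c', IsCoc c → IsCoc c' → Θ c = Θ c' →
    ∃ b : (L ≃ₐ[K] L) → ZMod 2, ∀ g h, c g h - c' g h = b g + b h - b (g * h)

/-- an invariant good class -/
def FIX_st : Prop := ∀ (p : ℕ) [Fact p.Prime] (K L : Type) [Field K] [Field L] [NumberField L]
  [Algebra K L] [Finite (L ≃ₐ[K] L)], IsPGroup 2 (L ≃ₐ[K] L) →
  ∀ x : L, Good p x → ¬ IsSquare x → ∃ x' : L, Good p x' ∧ ¬ IsSquare x' ∧ InvSq K x'

/-- adjoining a square root -/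
def EXT_st : Prop := ∀ (K L : Type) [Field K] [NumberField K] [Field L] [NumberField L]
  [Algebra K L] [IsGalois K L] (x : L), ¬ IsSquare x → InvSq K x →
  ∃ (M : Type) (_ : Field M) (_ : NumberField M) (_ : Algebra L M) (_ : Algebra K M)
    (_ : IsScalarTower K L M) (y : M), IsGalois K M ∧ finrank L M = 2 ∧
    y ^ 2 = algebraMap L M x ∧ (∀ z : M, ∃ a b : L, z = algebraMap L M a + algebraMap L M b * y) ∧
    ∀ (k : Type) [Field k], Spl k L → SqAt k x → Spl k M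

/-- no ramification at the odd primes -/
def UNR_st : Prop := ∀ (L M : Type) [Field L] [NumberField L] [Field M] [NumberField M]
  [Algebra L M] [IsGalois L M] (x : L) (y : M), x ≠ 0 → Ev x → y ^ 2 = algebraMap L M x →
  (∀ z : M, ∃ a b : L, z = algebraMap L M a + algebraMap L M b * y) →
  ∀ w : Pr M, (2 : 𝓞 M) ∉ w.asIdeal → w.asIdeal.ramificationIdx (𝓞 L) = 1

/-- a split prime is unramified, and splitting at the real place -/
def TWO_st : Prop :=
  (∀ (l : ℕ) [Fact l.Prime] (L : Type) [Field L] [NumberField L], Spl ℚ_[l] L →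
    ∀ w : Pr L, (l : 𝓞 L) ∈ w.asIdeal → ord w (l : L) = 1) ∧
  (∀ (L : Type) [Field L] [NumberField L], Spl ℝ L → IsTotallyReal L) ∧
  ∀ (k L : Type) [Field k] [CharZero k] [Field L] [NumberField L], Spl k L → Nonempty (L →+* k)

/-- the discriminant of an unramified extension, and towers -/
def DISC_st : Prop :=
  (∀ (K L : Type) [Field K] [NumberField K] [Field L] [NumberField L] [Algebra K L], Ur K L →
    (discr L).natAbs = (discr K).natAbs ^ finrank K L) ∧
  ∀ (K L M : Type) [Field K] [NumberField K] [Field L] [NumberField L] [Field M] [NumberField M]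
    [Algebra K L] [Algebra L M] [Algebra K M] [IsScalarTower K L M], Ur K L →
    (∀ w : Pr M, (2 : 𝓞 M) ∉ w.asIdeal → w.asIdeal.ramificationIdx (𝓞 L) = 1) →
    (∀ w : Pr M, (2 : 𝓞 M) ∈ w.asIdeal → ord w (2 : M) = 1) → Ur K M

/-- square classes of the local fields -/
def SQB_st : Prop := SqB ℝ 16 ∧ ∀ (l : ℕ) [Fact l.Prime], SqB ℚ_[l] 16

/-- the base field -/
def BASE_st : Prop := ∀ t : ℕ, ∃ C : ℕ, ∀ (p : ℕ) [Fact p.Prime],
  ∃ (K : Type) (_ : Field K) (_ : NumberField K), finrank ℚ K = 2 ∧ (discr K).natAbs ≤ C ∧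
    Spl ℝ K ∧ Spl ℚ_[2] K ∧ Spl ℚ_[p] K ∧ ∃ a : (Fin t → Bool) → K,
      (∀ e, a e ≠ 0 ∧ Ev (a e)) ∧ ∀ e e', IsSquare (a e * a e') → e = e'

/-- no field of the tower is maximal -/
def MAIN_st : Prop := ∀ (p : ℕ) [Fact p.Prime] (K L : Type) [Field K] [NumberField K] [Field L]
  [NumberField L] [Algebra K L] [IsGalois K L] [IsTotallyReal L] (a : (Fin 40 → Bool) → K),
  finrank ℚ K = 2 → (∀ e, a e ≠ 0 ∧ Ev (a e)) → (∀ e e', IsSquare (a e * a e') → e = e') →
  IsPGroup 2 (L ≃ₐ[K] L) → Ur K L → ∃ x : L, Good p x ∧ ¬ IsSquare x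

/-- totally real fields of bounded root discriminant in which `2` and `p` split completely -/
def TOWER_st : Prop := ∃ C : ℕ, ∀ (p : ℕ) [Fact p.Prime] (j : ℕ), 1 ≤ j →
  ∃ (K : Type) (_ : Field K) (_ : NumberField K), IsTotallyReal K ∧ finrank ℚ K = 2 ^ j ∧
    (discr K).natAbs ≤ C ^ 2 ^ j ∧ Nonempty (K →+* ℚ_[p]) ∧ Spl ℚ_[2] K ∧ Spl ℚ_[p] K

end Pool.Agent.MP_9b2bac_nt.Tw
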