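import Pool.Agent.MP_9b2bac_nt.Tw.Stmt

/-! Invariants that classify two-cocycles up to coboundaries. -/

set_option autoImplicit false

open NumberField IsDedekindDomain Module

namespace Pool.Agent.MP_9b2bac_nt.Tw

open Pool.Agent.MP_f3cd89_nt

theorem h90_Theta {K L : Type} [Field K] [Field L] [Algebra K L] [FiniteDimensional K L]
    (c : (L ≃ₐ[K] L) → (L ≃ₐ[K] L) → ZMod 2) (y : (L ≃ₐ[K] L) → L) (hy0 : ∀ g, y g ≠ 0)
    (hy : ∀ g h, y g * g (y h) = (-1) ^ (c g h).val * y (g * h)) :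
    ∃ x : L, x ≠ 0 ∧ ∀ g : L ≃ₐ[K] L, g x = x * y g ^ 2 := by
  obtain ⟨x, hx⟩ := groupCohomology.isMulCoboundary₁_of_isMulCocycle₁_of_aut_to_units
    (fun g : L ≃ₐ[K] L => Units.mk0 (y g ^ 2) (pow_ne_zero 2 (hy0 g))) (fun g h => by
      apply Units.ext
      have h1 := congrArg (· ^ 2) (hy g h)
      simp only [mul_pow] at h1
      rw [pow_right_comm, neg_one_sq, one_pow, one_mul] at h1
      simp [AlgEquiv.smul_units_def, ← h1, mul_comm])
  refine ⟨x, x.ne_zero, fun g => ?_⟩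
  have h1 := congrArg Units.val (hx g)
  simp only [AlgEquiv.smul_units_def, Units.val_div_eq_div_val, Units.coe_map, Units.val_mk0,
    MonoidHom.coe_coe] at h1
  rw [← h1, mul_div_cancel₀ _ x.ne_zero]

theorem dec_Theta : ∀ a b c d e : ZMod 2,
    (-1 : ℤ) ^ a.val * (-1) ^ b.val * (-1) ^ c.val * (-1) ^ d.val = (-1) ^ e.val →
      c - d = a + b - e := by decide

theorem sign_Theta {K L : Type} [Field K] [Field L] [CharZero L] [Algebra K L]
    (c c' : (L ≃ₐ[K] L) → (L ≃ₐ[K] L) → ZMod 2) (y y' : (L ≃ₐ[K] L) → L) (hy0 : ∀ g, y g ≠ 0)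
    (hy0' : ∀ g, y' g ≠ 0) (hy : ∀ g h, y g * g (y h) = (-1) ^ (c g h).val * y (g * h))
    (hy' : ∀ g h, y' g * g (y' h) = (-1) ^ (c' g h).val * y' (g * h)) (z : L) (hz : z ≠ 0)
    (h : ∀ g : L ≃ₐ[K] L, g z ^ 2 = (z * (y g * y' g)) ^ 2) :
    ∃ b : (L ≃ₐ[K] L) → ZMod 2, ∀ g h, c g h - c' g h = b g + b h - b (g * h) := by
  have h1 : ∀ g : L ≃ₐ[K] L, ∃ b : ZMod 2, g z = (-1) ^ b.val * (z * (y g * y' g)) := fun g => by
    rcases sq_eq_sq_iff_eq_or_eq_neg.1 (h g) with e | e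
    · exact ⟨0, by rw [e]; simp⟩
    · exact ⟨1, by rw [e, show (1 : ZMod 2).val = 1 from rfl]; simp⟩
  choose b hb using h1
  refine ⟨b, fun g h => dec_Theta _ _ _ _ _ (Int.cast_injective (α := L) ?_)⟩
  push_cast
  have h2 : (g * h) z = g (h z) := rfl
  rw [hb (g * h), hb h, map_mul, map_mul, map_mul, map_pow, map_neg, map_one, hb g] at h2
  refine mul_right_cancel₀ (mul_ne_zero hz (mul_ne_zero (hy0 (g * h)) (hy0' (g * h)))) ?_
  rw [h2]
  linear_combination (-((-1) ^ (b g).val * (-1) ^ (b h).val * z * (y' g * g (y' h)))) * hy g h -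
    ((-1) ^ (b g).val * (-1) ^ (b h).val * z * (-1) ^ (c g h).val * y (g * h)) * hy' g h

theorem theta (hF : FB_st) : THETA_st := by
  intro K L _ _ _ _ _ _ T U Ψ Ξ hU hE hS hΞ
  choose w hw using fun v : Pr K => under_surj (E' := L) v
  have hfin : ∀ x : L, (Function.support fun v : Pr K => ord (w v) x).Finite := fun x =>
    ((ord_finite x).image fun w' : Pr L => w'.under (𝓞 K)).subset fun v hv => ⟨w v, hv, hw v⟩
  let D : L → (Pr K →₀ ℤ) := fun x => Finsupp.ofSupportFinite (fun v => ord (w v) x) (hfin x)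
  have hD : ∀ x v, D x v = ord (w v) x := fun _ _ => rfl
  choose! y hy0 hy using hE
  choose! x hx0 hx using fun c (hc : IsCoc c) => h90_Theta c (y c) (hy0 c hc) (hy c hc)
  choose a ha0 ha using fun E : Pr K →₀ ℤ =>
    hΞ E (Function.invFun Ξ (Ξ E)) (Function.invFun_eq ⟨E, rfl⟩).symm
  refine ⟨fun c => (Ξ (D (x c)), Ψ (x c * algebraMap K L (a (D (x c))))),
    fun c c' hc hc' e => ?_⟩
  obtain ⟨e1, e2⟩ := Prod.mk.inj e
  have n1 : algebraMap K L (a (D (x c))) ≠ 0 := (map_ne_zero _).2 (ha0 _)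
  have n2 : algebraMap K L (a (D (x c'))) ≠ 0 := (map_ne_zero _).2 (ha0 _)
  have m1 := mul_ne_zero (hx0 c hc) n1
  have m2 := mul_ne_zero (hx0 c' hc') n2
  have inv : ∀ g : L ≃ₐ[K] L,
      g (x c * algebraMap K L (a (D (x c))) * (x c' * algebraMap K L (a (D (x c'))))) =
      (x c * algebraMap K L (a (D (x c))) * (x c' * algebraMap K L (a (D (x c'))))) *
        (y c g * y c' g) ^ 2 := fun g => by
    simp only [map_mul, AlgEquiv.commutes, hx c hc, hx c' hc']
    ring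
  have ov : ∀ (v : Pr K) (t : K), ord (w v) (algebraMap K L t) = ord v t := fun v t => by
    have := ord_over (over_under (E := K) (w v)) t
    rw [hU, hw] at this
    simpa using this
  have ev0 : ∀ v, Even (ord (w v)
      (x c * algebraMap K L (a (D (x c))) * (x c' * algebraMap K L (a (D (x c')))))) := fun v => by
    rw [ord_mul _ m1 m2, ord_mul _ (hx0 c hc) n1, ord_mul _ (hx0 c' hc') n2, ov, ov]
    obtain ⟨r, hr⟩ := ha (D (x c)) v
    obtain ⟨s, hs⟩ := ha (D (x c')) v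
    rw [hD, e1] at hr
    rw [hD] at hs
    exact ⟨r + s - Function.invFun Ξ (Ξ (D (x c'))) v, by linarith⟩
  have ev : Ev (x c * algebraMap K L (a (D (x c))) * (x c' * algebraMap K L (a (D (x c'))))) := by
    intro w'
    obtain ⟨g, hg⟩ := (hF K L (L ≃ₐ[K] L)).2.1 (w (w'.under (𝓞 K))) w' (hw _)
    obtain ⟨r, hr⟩ := ev0 (w'.under (𝓞 K))
    rw [← ord_gact g, hg, AlgEquiv.smul_def, inv, ord_mul _ (mul_ne_zero m1 m2)
      (pow_ne_zero 2 (mul_ne_zero (hy0 c hc g) (hy0 c' hc' g))), ord_pow] at hr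
    exact ⟨r - ord w' (y c g * y c' g), by push_cast at hr; linarith⟩
  obtain ⟨z, hz⟩ := hS _ _ m1 m2 (fun g => ⟨_, inv g⟩) ev e2
  have z0 : z ≠ 0 := by
    rintro rfl
    exact mul_ne_zero m1 m2 (by simpa using hz)
  refine sign_Theta c c' (y c) (y c') (hy0 c hc) (hy0 c' hc') (hy c hc) (hy c' hc') z z0
    fun g => ?_
  have := inv g
  rw [hz, map_mul] at this
  linear_combination this

end Pool.Agent.MP_9b2bac_nt.Tw
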