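import Pool.Agent.MP_9b2bac_nt.Tw.Stmt

set_option autoImplicit false

open NumberField IsDedekindDomain Module

namespace Pool.Agent.MP_9b2bac_nt.Tw

open Pool.Agent.MP_f3cd89_nt

theorem lift_Two (l : ℕ) [Fact l.Prime] {L : Type} [Field L] [NumberField L] (φ : L →+* ℚ_[l]) :
    ∃ g : 𝓞 L →+* ℤ_[l], ∀ x : 𝓞 L, (g x : ℚ_[l]) = φ x := by
  have h : ∀ x : 𝓞 L, ∃ y : ℤ_[l], algebraMap ℤ_[l] ℚ_[l] y = φ x := fun x =>
    IsIntegrallyClosed.isIntegral_iff.1
      ((x.isIntegral_coe.map φ.toIntAlgHom).tower_top (A := ℤ_[l]))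
  choose g hg using h
  have hi : Function.Injective (algebraMap ℤ_[l] ℚ_[l]) := IsFractionRing.injective _ _
  refine ⟨⟨⟨⟨g, hi ?_⟩, fun x y => hi ?_⟩, hi ?_, fun x y => hi ?_⟩, hg⟩
  · rw [hg, map_one, RingOfIntegers.coe_eq_algebraMap, map_one, map_one]
  · rw [map_mul, hg, hg, hg, ← map_mul, RingOfIntegers.coe_eq_algebraMap, map_mul]
  · rw [hg, map_zero, RingOfIntegers.coe_eq_algebraMap, map_zero, map_zero]
  · rw [map_add, hg, hg, hg, ← map_add, RingOfIntegers.coe_eq_algebraMap, map_add]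

theorem exists_Two (l : ℕ) [Fact l.Prime] {L : Type} [Field L] [NumberField L] (hS : Spl ℚ_[l] L)
    (w : Pr L) (hw : (l : 𝓞 L) ∈ w.asIdeal) :
    ∃ g : 𝓞 L →+* ℤ_[l], w.asIdeal ≤ (IsLocalRing.maximalIdeal ℤ_[l]).comap g := by
  classical
  choose φ hφ using hS
  choose g hg using fun ψ => lift_Two l (φ ψ)
  by_contra hne
  push Not at hne
  obtain ⟨ψ₀⟩ : Nonempty (L →+* AlgebraicClosure ℚ_[l]) :=
    ⟨(IsAlgClosed.lift : L →ₐ[ℚ] AlgebraicClosure ℚ_[l]).toRingHom⟩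
  have h1 := (Ideal.subset_union_prime (s := Finset.univ)
    (f := fun ψ => (IsLocalRing.maximalIdeal ℤ_[l]).comap (g ψ)) ψ₀ ψ₀
    (fun i _ _ _ => Ideal.comap_isPrime _ _) (I := w.asIdeal)).not.2
    (by rintro ⟨i, -, hi⟩; exact hne _ hi)
  obtain ⟨x, hx, hx'⟩ := Set.not_subset.1 h1
  have h2 : ∀ ψ, ‖φ ψ x‖ = 1 := by
    intro ψ
    have : g ψ x ∉ IsLocalRing.maximalIdeal ℤ_[l] := fun h =>
      hx' (Set.mem_biUnion (Finset.mem_coe.2 (Finset.mem_univ ψ)) h)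
    rw [IsLocalRing.notMem_maximalIdeal, PadicInt.isUnit_iff] at this
    rw [← hg]
    exact this
  have h3 : ((Algebra.norm ℤ x : ℤ) : ℚ_[l]) =
      ∏ σ : L →ₐ[ℚ] AlgebraicClosure ℚ_[l], φ σ.toRingHom x := by
    apply (algebraMap ℚ_[l] (AlgebraicClosure ℚ_[l])).injective
    rw [map_prod, map_intCast]
    have := Algebra.norm_eq_prod_embeddings ℚ (AlgebraicClosure ℚ_[l]) (x : L)
    rw [← Algebra.coe_norm_int, map_intCast] at this
    rw [this]
    exact Finset.prod_congr rfl fun σ _ => hφ σ.toRingHom x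
  have h4 : ¬ (l : ℤ) ∣ Algebra.norm ℤ x := by
    rw [← Padic.norm_intCast_lt_one_iff, h3, norm_prod]
    simp [h2]
  have h5 : (((Algebra.norm ℤ x).natAbs : ℕ) : 𝓞 L) ∈ w.asIdeal := by
    have := Ideal.absNorm_mem (Ideal.span {x})
    rw [Ideal.absNorm_span_singleton] at this
    exact (Ideal.span_singleton_le_iff_mem _).2 hx this
  have h6 : Nat.Coprime l (Algebra.norm ℤ x).natAbs :=
    (Nat.Prime.coprime_iff_not_dvd Fact.out).2 fun h => h4 (Int.natCast_dvd.2 h)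
  obtain ⟨a, b, hab⟩ := Nat.Coprime.cast (R := 𝓞 L) h6
  refine w.isPrime.ne_top ((Ideal.eq_top_iff_one _).2 ?_)
  rw [← hab]
  exact add_mem (Ideal.mul_mem_left _ _ hw) (Ideal.mul_mem_left _ _ h5)

theorem two : TWO_st := by
  refine ⟨fun l _ L _ _ hS w hw => ?_, fun L _ _ hS => ⟨fun v => ?_⟩, fun k L _ _ _ _ hS => ?_⟩
  · obtain ⟨g, hg⟩ := exists_Two l hS w hw
    have l0 : (l : L) ≠ 0 := Nat.cast_ne_zero.2 (Fact.out : l.Prime).ne_zero
    have h2 : (l : 𝓞 L) ∉ w.asIdeal ^ 2 := by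
      intro h
      have h3 : g l ∈ (IsLocalRing.maximalIdeal ℤ_[l]) ^ 2 := by
        have := Ideal.mem_map_of_mem g h
        rw [Ideal.map_pow] at this
        exact Ideal.pow_right_mono (Ideal.map_le_iff_le_comap.2 hg) 2 this
      rw [map_natCast, PadicInt.maximalIdeal_eq_span_p, Ideal.span_singleton_pow,
        ← PadicInt.norm_le_pow_iff_mem_span_pow, PadicInt.norm_p, ← zpow_neg_one] at h3
      have hl : (1 : ℝ) < l := by exact_mod_cast (Fact.out : l.Prime).one_lt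
      rw [zpow_le_zpow_iff_right₀ hl] at h3
      omega
    have e : w.valuation L (l : L) = w.intValuation (l : 𝓞 L) := by
      rw [← w.valuation_of_algebraMap (K := L)]
      exact congrArg _ (map_natCast (algebraMap (𝓞 L) L) l).symm
    have h1 := (w.intValuation_le_pow_iff_mem (l : 𝓞 L) 1).2 (by rwa [pow_one])
    have h2' := (w.intValuation_le_pow_iff_mem (l : 𝓞 L) 2).not.2 h2
    rw [← e, val_eq_exp w l0, WithZero.exp_le_exp] at h1 h2'
    omega
  · let e : ℂ →ₐ[ℝ] AlgebraicClosure ℝ := IsAlgClosed.lift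
    obtain ⟨φ, hφ⟩ := hS (e.toRingHom.comp v.embedding)
    have h : ∀ x, v.embedding x = (φ x : ℂ) := fun x =>
      e.toRingHom.injective ((hφ x).trans (e.commutes (φ x)).symm)
    rw [InfinitePlace.isReal_iff, ComplexEmbedding.isReal_iff]
    ext x
    rw [ComplexEmbedding.conjugate_coe_eq, h, Complex.conj_ofReal]
  · obtain ⟨φ, -⟩ := hS (IsAlgClosed.lift : L →ₐ[ℚ] AlgebraicClosure k).toRingHom
    exact ⟨φ⟩

end Pool.Agent.MP_9b2bac_nt.Tw
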