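import Pool.Agent.MP_9b2bac_nt.Tw.Stmt

set_option autoImplicit false

open NumberField IsDedekindDomain Module

namespace Pool.Agent.MP_9b2bac_nt.Tw

open Pool.Agent.MP_f3cd89_nt

theorem gen_Unr (L M : Type) [Field L] [NumberField L] [Field M] [NumberField M] [Algebra L M]
    (x : L) (y : M) (hx : x ≠ 0) (hE : Ev x) (hy : y ^ 2 = algebraMap L M x) (w : Pr M) :
    ∃ (z : L) (u : 𝓞 M), (u : M) = y * algebraMap L M z ∧ u ∉ w.asIdeal := by
  have hw := over_under (E := L) w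
  set v : Pr L := w.under (𝓞 L) with hv
  obtain ⟨k, hk⟩ := hE v
  obtain ⟨π, hπ0, hπ⟩ := exists_ord_eq_one v
  have hπ0' : (π : L) ≠ 0 := by simpa using hπ0
  have hz0 : (π : L) ^ (-k) ≠ 0 := zpow_ne_zero _ hπ0'
  have ht0 : x * ((π : L) ^ (-k)) ^ 2 ≠ 0 := mul_ne_zero hx (pow_ne_zero _ hz0)
  have ht : ord v (x * ((π : L) ^ (-k)) ^ 2) = 0 := by
    rw [ord_mul v hx (pow_ne_zero _ hz0), ord_pow, ord_zpow, hπ, hk]; push_cast; ring
  obtain ⟨n, d, hnd⟩ := v.exists_primeCompl_mul_eq_of_integer (x * ((π : L) ^ (-k)) ^ 2)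
    ((val_eq_one_iff v ht0).2 ht).le
  have hd : (d : 𝓞 L) ∉ v.asIdeal := d.2
  have hd0 : (d : 𝓞 L) ≠ 0 := fun h => hd (h ▸ v.asIdeal.zero_mem)
  have hd0' : ((d : 𝓞 L) : L) ≠ 0 := by simpa using hd0
  have hdo : ord v ((d : 𝓞 L) : L) = 0 := (ord_eq_zero_iff v hd0).2 hd
  have hnd' : x * ((π : L) ^ (-k)) ^ 2 * ((d : 𝓞 L) : L) = (n : L) := hnd
  have hnm : (((n * d : 𝓞 L)) : L) =
      x * ((π : L) ^ (-k)) ^ 2 * ((d : 𝓞 L) : L) * ((d : 𝓞 L) : L) := by rw [hnd']; rfl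
  have hsq : (y * algebraMap L M ((π : L) ^ (-k) * ((d : 𝓞 L) : L))) ^ 2 =
      algebraMap L M (((n * d : 𝓞 L)) : L) := by
    rw [mul_pow, hy, ← map_pow, ← map_mul]
    congr 1
    rw [hnm]; ring
  obtain ⟨u, hu⟩ := exists_int (x := y * algebraMap L M ((π : L) ^ (-k) * ((d : 𝓞 L) : L)))
    fun w' => by
      have h1 := ord_pow w' (y * algebraMap L M ((π : L) ^ (-k) * ((d : 𝓞 L) : L))) 2
      rw [hsq, ord_over (over_under (E := L) w')] at h1
      have h2 := ord_nonneg (w'.under (𝓞 L)) (n * d)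
      have h3 := mul_nonneg (Int.natCast_nonneg (w'.asIdeal.ramificationIdx (𝓞 L))) h2
      rw [h1] at h3
      exact nonneg_of_mul_nonneg_right h3 (by norm_num)
  have hnd0 : (((n * d : 𝓞 L)) : L) ≠ 0 := by
    rw [hnm]
    exact mul_ne_zero (mul_ne_zero ht0 hd0') hd0'
  have hu0 : u ≠ 0 := by
    rintro rfl
    rw [← hu] at hsq
    exact hnd0 ((algebraMap L M).injective (by rw [← hsq]; simp))
  refine ⟨_, u, hu, (ord_eq_zero_iff w hu0).1 ?_⟩
  have h1 := ord_pow w (u : M) 2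
  have h4 : ord v (((n * d : 𝓞 L)) : L) = 0 := by
    rw [hnm, ord_mul v (mul_ne_zero ht0 hd0') hd0', ord_mul v ht0 hd0', ht, hdo]; rfl
  rw [hu, hsq, ord_over hw, h4, ← hu] at h1
  push_cast at h1
  omega

theorem unr (hF : FB_st) : UNR_st := by
  intro L M _ _ _ _ _ _ x y hx hE hy hsp w h2
  refine ((hF L M (M ≃ₐ[L] M)).2.2.2.2.2.1 w).1 ?_
  rw [eq_bot_iff]
  intro σ hσ
  obtain ⟨z, u, hu, huw⟩ := gen_Unr L M x y hx hE hy w
  have hs : σ y ^ 2 = y ^ 2 := by rw [← map_pow, hy, AlgEquiv.commutes]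
  rcases sq_eq_sq_iff_eq_or_eq_neg.1 hs with h | h
  · refine Subgroup.mem_bot.2 (AlgEquiv.ext fun t => ?_)
    obtain ⟨a, b, rfl⟩ := hsp t
    simp [h]
  · exfalso
    have h1 : σ • u - u ∈ w.asIdeal := hσ u
    have h3 : σ • u - u = -(2 * u) := by
      apply RingOfIntegers.ext
      change σ (u : M) - (u : M) = -(2 * (u : M))
      rw [hu, map_mul, h, AlgEquiv.commutes]; ring
    rw [h3, Ideal.neg_mem_iff] at h1
    rcases w.isPrime.mem_or_mem h1 with h4 | h4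
    · exact h2 h4
    · exact huw h4

theorem disc : DISC_st := by
  refine ⟨fun K L _ _ _ _ _ hU => ?_, fun K L M _ _ _ _ _ _ _ _ _ _ hU h1 h2 w => ?_⟩
  · rw [natAbs_discr_eq_absNorm_differentIdeal_mul_natAbs_discr_pow K (𝓞 K) L (𝓞 L)]
    have : differentIdeal (𝓞 K) (𝓞 L) = ⊤ := by
      by_contra hne
      obtain ⟨P, hP, hle⟩ := Ideal.exists_le_maximal _ hne
      have hP0 : P ≠ ⊥ := Ring.ne_bot_of_isMaximal_of_not_isField hP (RingOfIntegers.not_isField L)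
      have hr := hU ⟨P, hP.isPrime, hP0⟩
      have := hP.isPrime
      exact not_dvd_differentIdeal_iff.2 (Ideal.ramificationIdx_eq_one_iff.1 hr)
        (Ideal.dvd_iff_le.2 hle)
    rw [this, Ideal.absNorm_top, one_mul]
  · by_cases hw : (2 : 𝓞 M) ∈ w.asIdeal
    · have h3 := h2 w hw
      have h4 := ord_over (over_under (E := K) w) (2 : K)
      have h5 : algebraMap K M 2 = 2 := map_ofNat _ 2
      rw [h5, h3] at h4
      exact_mod_cast Int.eq_one_of_mul_eq_one_right (Int.natCast_nonneg _) h4.symm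
    · obtain ⟨a, -, ha⟩ := exists_ord_eq_one (w.under (𝓞 K))
      have h4 := ord_over (over_under (E := K) w) (a : K)
      have h5 := ord_over (over_under (E := L) w) (algebraMap K L (a : K))
      have h6 := ord_over (over_under (E := K) (w.under (𝓞 L))) (a : K)
      have h7 : (w.under (𝓞 L)).under (𝓞 K) = w.under (𝓞 K) :=
        HeightOneSpectrum.ext (Ideal.under_under (A := 𝓞 K) (B := 𝓞 L) w.asIdeal)
      rw [← IsScalarTower.algebraMap_apply, h1 w hw, h6, hU, h7, ha, h4, ha] at h5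
      exact_mod_cast (by simpa using h5 : ((w.asIdeal.ramificationIdx (𝓞 K) : ℕ) : ℤ) = 1)

end Pool.Agent.MP_9b2bac_nt.Tw
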